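import Pool.Agent.Helper1.Stab.GF

/-!
# Shifts as functors

`upF`, `downF` on prespectra, `shiftF`, `unshiftF` on graded functors.
-/

set_option autoImplicit false

open CategoryTheory Topology Opposite

noncomputable section

namespace Pool.Agent.Helper1.Stab

/-! ## Prespectra -/

theorem Prespectrum.id_map (X : Prespectrum) (n : ℕ) :
    Prespectrum.Hom.map (𝟙 X) n = ContinuousMap.id _ := rfl

theorem Prespectrum.comp_map {X Y Z : Prespectrum} (f : X ⟶ Y) (g : Y ⟶ Z) (n : ℕ) :
    Prespectrum.Hom.map (f ≫ g) n = (Prespectrum.Hom.map g n).comp (Prespectrum.Hom.map f n) := rfl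

/-- the suspension of a map -/
def Prespectrum.upMap {X Y : Prespectrum} (f : X ⟶ Y) : X.up ⟶ Y.up where
  map n := Prespectrum.Hom.map f (n + 1)
  map_pt n := Prespectrum.Hom.map_pt f (n + 1)
  map_str n := Prespectrum.Hom.map_str f (n + 1)

/-- the suspension as a functor -/
def upF : Prespectrum ⥤ Prespectrum where
  obj X := X.up
  map f := Prespectrum.upMap f
  map_id _ := rfl
  map_comp _ _ := rfl

/-- the levels of the desuspension of a map -/
def Prespectrum.downMapLev {X Y : Prespectrum} (f : X ⟶ Y) : ∀ n, C(X.downSp n, Y.downSp n)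
  | 0 => ContinuousMap.id _
  | n + 1 => Prespectrum.Hom.map f n

/-- the desuspension of a map -/
def Prespectrum.downMap {X Y : Prespectrum} (f : X ⟶ Y) : X.down ⟶ Y.down where
  map := Prespectrum.downMapLev f
  map_pt n := by
    cases n with
    | zero => rfl
    | succ n => exact Prespectrum.Hom.map_pt f n
  map_str n t x := by
    cases n with
    | zero => exact Prespectrum.Hom.map_pt f 0
    | succ n => exact Prespectrum.Hom.map_str f n t x

/-- the desuspension as a functor -/
def downF : Prespectrum ⥤ Prespectrum where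
  obj X := X.down
  map f := Prespectrum.downMap f
  map_id X := by
    apply Prespectrum.Hom.ext
    funext n
    cases n with
    | zero => rfl
    | succ n => rfl
  map_comp f g := by
    apply Prespectrum.Hom.ext
    funext n
    cases n with
    | zero => rfl
    | succ n => rfl

/-- The map from the suspension of the desuspension. -/
def Prespectrum.upDownLev (X : Prespectrum) : ∀ n, C(X.up.downSp n, X.sp n)
  | 0 => ContinuousMap.const _ (X.sp 0).pt
  | _ + 1 => ContinuousMap.id _

/-- The map from the desuspension of the suspension: a point in level `0`, the identity above. -/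
def Prespectrum.upDown (X : Prespectrum) : X.up.down ⟶ X where
  map := X.upDownLev
  map_pt n := by
    cases n with
    | zero => rfl
    | succ n => rfl
  map_str n t x := by
    cases n with
    | zero => exact (X.str_pt 0 t).symm
    | succ n => rfl

/-! ## Graded functors -/

/-- the shift as a functor -/
def GF.shiftF : GF ⥤ GF where
  obj H := H.shift
  map f := ⟨fun b => f.app (b + 1), fun b => f.comm (b + 1)⟩
  map_id _ := rfl
  map_comp _ _ := rfl

/-- the inverse shift as a functor -/
def GF.unshiftF : GF ⥤ GF where
  obj H := H.unshift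
  map {G H} f := GF.Hom.mk' (G := G.unshift) (H := H.unshift)
    (fun b => Functor.whiskerLeft Test.cx.op (f.app b)) fun b K => by
      exact f.comm_apply b (Test.cx.op.obj K)
  map_id _ := rfl
  map_comp _ _ := rfl

/-- the unit `H → H[1][-1]` (which is equal to `H[-1][1]`) -/
def GF.η : 𝟭 GF ⟶ GF.shiftF ⋙ GF.unshiftF where
  app H := GF.Hom.mk' (G := H) (H := GF.unshiftF.obj (GF.shiftF.obj H))
    (fun b => (H.σ b).hom) fun _ _ => rfl
  naturality G H f := GF.hom_ext fun b => (f.comm b).symm

/-- a morphism is an isomorphism if all its components are -/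
theorem GF.isIso_of_app {G H : GF} (f : G ⟶ H) (h : ∀ b, IsIso (f.app b)) : IsIso f := by
  refine ⟨⟨fun b => inv (f.app b), fun b => ?_⟩, GF.hom_ext fun b => ?_, GF.hom_ext fun b => ?_⟩
  · have h1 := f.comm b
    rw [IsIso.eq_inv_comp, ← Category.assoc, ← h1, Category.assoc, ← Functor.whiskerLeft_comp,
      IsIso.hom_inv_id]
    simp
  · exact IsIso.hom_inv_id _
  · exact IsIso.inv_hom_id _

theorem GF.isIso_app {G H : GF} (f : G ⟶ H) [IsIso f] (b : ℕ) : IsIso (f.app b) :=
  ⟨(inv f).app b, by rw [← GF.comp_app, IsIso.hom_inv_id]; rfl, by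
    rw [← GF.comp_app, IsIso.inv_hom_id]; rfl⟩

instance : IsIso GF.η := by
  have : ∀ H, IsIso (GF.η.app H) := fun H => GF.isIso_of_app _ fun b => by
    change IsIso (H.σ b).hom
    infer_instance
  exact NatIso.isIso_of_isIso_app _

theorem GF.shift_unshift_eq : GF.shiftF ⋙ GF.unshiftF = GF.unshiftF ⋙ GF.shiftF := rfl

instance : GF.shiftF.IsEquivalence :=
  (CategoryTheory.Equivalence.mk GF.shiftF GF.unshiftF (asIso GF.η) (asIso GF.η).symm).isEquivalence_functor

instance : GF.unshiftF.IsEquivalence :=
  (CategoryTheory.Equivalence.mk GF.shiftF GF.unshiftF (asIso GF.η) (asIso GF.η).symm).isEquivalence_inverse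

instance : GF.shiftF.Additive where
  map_add := rfl

instance : GF.unshiftF.Additive where
  map_add := rfl

end Pool.Agent.Helper1.Stab
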