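import Pool.Agent.Helper56.BSU.Susp
import Pool.Agent.Helper68.Stab.CModel

/-!
# Derivation of the main statement
-/

set_option autoImplicit false

open CategoryTheory Topology Opposite

noncomputable section

namespace Pool.Agent.Helper1.Stab

open Pool.Agent.Helper56.BSU

/-! ## Algebra: endomorphism rings -/

/-- Additive endomorphisms `f`, `g` with `f + g = 1` of a group which is a localisation of `ℤ` at `p`:
one of them is bijective. -/
theorem local_aux {p : ℕ} (hp : p.Prime) {P : Type} [AddCommGroup P] (u : P)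
    (hu : IsLocalizedModule (primeTo p) (LinearMap.toSpanSingleton ℤ P u)) (f g : P →+ P)
    (hfg : ∀ x, f x + g x = x) : Function.Bijective f ∨ Function.Bijective g := by
  have hbij : ∀ s ∈ primeTo p, Function.Bijective fun x : P => s • x := by
    intro s hs
    have h1 := hu.map_units ⟨s, hs⟩
    rw [Module.End.isUnit_iff] at h1
    exact h1
  have key : ∀ (f : P →+ P) (s a : ℤ), s ∈ primeTo p → a ∈ primeTo p → s • f u = a • u →
      Function.Bijective f := by
    intro f s a hs ha h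
    have h1 : ∀ y : P, s • f y = a • y := by
      intro y
      obtain ⟨⟨c, t⟩, hct⟩ := hu.surj y
      have hct' : (t : ℤ) • y = c • u := hct
      apply (hbij t t.2).1
      change (t : ℤ) • s • f y = (t : ℤ) • a • y
      rw [smul_comm (t : ℤ) s, ← map_zsmul, hct', map_zsmul, smul_comm s c, h, smul_comm (t : ℤ) a,
        hct', smul_comm a c]
    constructor
    · intro x y hxy
      apply (hbij a ha).1
      change a • x = a • y
      rw [← h1, ← h1, hxy]
    · intro y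
      obtain ⟨z, hz⟩ := (hbij a ha).2 (s • y)
      refine ⟨z, (hbij s hs).1 ?_⟩
      change s • f z = s • y
      rw [h1]
      exact hz
  obtain ⟨⟨a, s⟩, has⟩ := hu.surj (f u)
  have has' : (s : ℤ) • f u = a • u := has
  have hg : (s : ℤ) • g u = ((s : ℤ) - a) • u := by
    have h2 : g u = u - f u := eq_sub_of_add_eq' (hfg u)
    rw [h2, smul_sub, has', sub_smul]
  by_cases ha : a ∈ primeTo p
  · exact Or.inl (key f s a s.2 ha has')
  · right
    refine key g s (s - a) s.2 ?_ hg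
    have hpa : (p : ℤ) ∣ a := by
      by_contra hcon
      apply ha
      change IsCoprime a (p : ℤ)
      rw [isCoprime_comm]
      exact (Nat.prime_iff_prime_int.1 hp).coprime_iff_not_dvd.2 hcon
    obtain ⟨c, rfl⟩ := hpa
    change IsCoprime ((s : ℤ) - p * c) (p : ℤ)
    have h3 : IsCoprime (s : ℤ) (p : ℤ) := s.2
    have h4 : (s : ℤ) - p * c = s + p * (-c) := by ring
    rw [h4]
    exact IsCoprime.add_mul_left_left h3 (-c)

/-- The group is not zero, and `m` acts bijectively only if it is prime to `p`. -/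
theorem coprime_aux {p : ℕ} (hp : p.Prime) {P : Type} [AddCommGroup P] (u : P)
    (hu : IsLocalizedModule (primeTo p) (LinearMap.toSpanSingleton ℤ P u)) :
    u ≠ 0 ∧ ∀ m : ℤ, Function.Bijective (fun x : P => m • x) → m ∈ primeTo p := by
  have key : ∀ a : ℤ, a • u = 0 → a = 0 := by
    intro a ha
    have h1 : LinearMap.toSpanSingleton ℤ P u a = LinearMap.toSpanSingleton ℤ P u 0 := by
      rw [map_zero]
      exact ha
    obtain ⟨c, hc⟩ := (IsLocalizedModule.eq_iff_exists (primeTo p) _).1 h1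
    have hc' : (c : ℤ) * a = 0 := by
      rw [smul_zero] at hc
      exact hc
    rcases mul_eq_zero.1 hc' with h | h
    · exfalso
      have h2 : IsCoprime (c : ℤ) (p : ℤ) := c.2
      rw [h, isCoprime_zero_left, Int.isUnit_iff] at h2
      have := hp.two_le
      omega
    · exact h
  refine ⟨fun h => ?_, fun m hm => ?_⟩
  · have := key 1 (by rw [h, smul_zero])
    omega
  · by_contra hcon
    have hpm : (p : ℤ) ∣ m := by
      by_contra h
      apply hcon
      change IsCoprime m (p : ℤ)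
      rw [isCoprime_comm]
      exact (Nat.prime_iff_prime_int.1 hp).coprime_iff_not_dvd.2 h
    obtain ⟨c, rfl⟩ := hpm
    obtain ⟨y, hy⟩ := hm.2 u
    obtain ⟨⟨a, s⟩, has⟩ := hu.surj y
    have has' : (s : ℤ) • y = a • u := has
    have hy' : ((p : ℤ) * c) • y = u := hy
    have h1 : ((s : ℤ) - p * c * a) • u = 0 := by
      have h2 : (s : ℤ) • u = ((p : ℤ) * c * a) • u := by
        conv_lhs => rw [← hy']
        rw [smul_comm, has', smul_smul]
      rw [sub_smul, h2, sub_self]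
    have h2 := key _ h1
    have h3 : IsCoprime (s : ℤ) (p : ℤ) := s.2
    have h4 : (p : ℤ) ∣ s := ⟨c * a, by linarith⟩
    have h5 : IsUnit (p : ℤ) := h3.isUnit_of_dvd' h4 dvd_rfl
    rw [Int.isUnit_iff] at h5
    have := hp.two_le
    omega

/-! ## The unit of the localisation -/

section Unit

variable {S : Submonoid ℤ}

theorem sphLoc_inv {G H : GF} (hH : H.Exact) (q : G ⟶ H) (hq : SphLoc S q) (s : ℤ) (hs : s ∈ S) :
    Inv s H := by
  refine GF.isIso_of_spheres hH hH _ fun b a => ?_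
  rw [Functor.map_zsmul, CategoryTheory.Functor.map_id, ConcreteCategory.isIso_iff_bijective]
  exact bij_of_isLoc ((GF.ev b (Test.R a)).map q) (hq b a) s hs

theorem iso_loc {G H : GF} (hG : G.Exact) (hH : H.Exact) (q : G ⟶ H) (hq : SphLoc S q) :
    ∃ e : H ≅ (GF.loc S).obj G, q ≫ e.hom = (GF.locη S).app G := by
  have h1 : IsIso ((GF.locη S).app H) := GF.locη_iso fun s hs => sphLoc_inv hH q hq s hs
  have h2 : IsIso ((GF.loc S).map q) := GF.loc_map_iso' hG hH q hq
  refine ⟨asIso ((GF.locη S).app H) ≪≫ (asIso ((GF.loc S).map q)).symm, ?_⟩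
  have h3 : q ≫ (GF.locη S).app H = (GF.locη S).app G ≫ (GF.loc S).map q :=
    (GF.locη S).naturality q
  rw [Iso.trans_hom, asIso_hom, Iso.symm_hom, asIso_inv, ← Category.assoc, h3, Category.assoc,
    IsIso.hom_inv_id, Category.comp_id]

theorem iso_loc' {G H : GF} (q : G ⟶ H) (hq : GF.IsLoc S q) :
    ∃ e : H ≅ (GF.loc S).obj G, q ≫ e.hom = (GF.locη S).app G := by
  have h1 : IsIso ((GF.locη S).app H) := by
    refine GF.locη_iso fun s hs => GF.isIso_of_app _ fun b => ?_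
    have : ∀ K, IsIso (((s • 𝟙 H : H ⟶ H).app b).app K) := fun K => by
      have h2 : IsIso ((GF.ev b K.unop).map (s • 𝟙 H)) := by
        rw [Functor.map_zsmul, CategoryTheory.Functor.map_id,
          ConcreteCategory.isIso_iff_bijective]
        exact bij_of_isLoc ((GF.ev b K.unop).map q) (hq b K.unop) s hs
      exact h2
    exact NatIso.isIso_of_isIso_app _
  have h2 : IsIso ((GF.loc S).map q) := GF.loc_map_iso le_rfl q hq
  refine ⟨asIso ((GF.locη S).app H) ≪≫ (asIso ((GF.loc S).map q)).symm, ?_⟩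
  have h3 : q ≫ (GF.locη S).app H = (GF.locη S).app G ≫ (GF.loc S).map q :=
    (GF.locη S).naturality q
  rw [Iso.trans_hom, asIso_hom, Iso.symm_hom, asIso_inv, ← Category.assoc, h3, Category.assoc,
    IsIso.hom_inv_id, Category.comp_id]

theorem sphLoc_locη (G : GF) {H : GF} (e : (GF.loc S).obj G ≅ H) :
    SphLoc S ((GF.locη S).app G ≫ e.hom) := by
  intro b a
  refine isLoc_congr (Iso.refl _) ((GF.ev b (Test.R a)).mapIso e)
    (f := (GF.ev b (Test.R a)).map ((GF.locη S).app G)) ?_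
    (Pool.Agent.Helper56.BSU.locη_isLoc S ((G.h b).obj (op (Test.R a))))
  rw [Iso.refl_hom, Category.id_comp, Functor.map_comp]
  rfl

end Unit

/-! ## The Brown–Peterson spectrum -/

/-- a compact model -/
def HasModel (X : Prespectrum) : Prop :=
  ∃ (G : Prespectrum) (_ : IsCompactLevel G) (w : G ⟶ X), stableEquiv w

theorem hasModel_MUP : HasModel MUP := by
  obtain ⟨G, hG, -, w, hw⟩ := exists_compactModel (D := Set.univ) (Or.inl rfl) (k := 1) (d := 2)
    (by decide) (by decide) bott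
  exact ⟨G, hG, w, hw⟩

theorem hasModel_SBSU {k : ℕ} (f : GenLoop (Fin 4) (Gr {1} k) (Gr.pt {1} k)) :
    HasModel (SBSU f) := by
  obtain ⟨G, hG, -, w, hw⟩ := exists_compactModel (D := {1}) (Or.inr rfl) (k := k) (d := 4)
    (by decide) (by decide) f
  exact ⟨G, hG, w, hw⟩

section BP

variable {p : ℕ} {B : Prespectrum}

/-- the localisation of periodic bordism is a sum -/
theorem IsBP.split (hB : IsBP p B) : ∃ (ι : Type) (_ : Nonempty ι) (n : ι → ℤ)
    (_ : hP.obj (wedge fun i => B.susp (2 * n i)) ≅ (GF.loc (primeTo p)).obj (hP.obj MUP)),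
    True := by
  obtain ⟨ι, hι, n, q, hq⟩ := hB.bordism
  obtain ⟨e, -⟩ := iso_loc (hT _).exact (hT _).exact (hm q) ((isPLoc_iff q).1 hq)
  exact ⟨ι, hι, n, e, trivial⟩

/-- Localised compact models. -/
theorem realises_loc {X W : Prespectrum} (hX : HasModel X) {S : Submonoid ℤ}
    (e : hP.obj W ≅ (GF.loc S).obj (hP.obj X)) : Realises W := by
  obtain ⟨G, hG, w, hw⟩ := hX
  obtain ⟨G', hG', -, q, hq⟩ := exists_loc_free hG S
  obtain ⟨e', -⟩ := iso_loc' q hq
  have h1 : IsIso (hP.map w) := (stableEquiv_iff w).1 hw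
  exact realises_iso hG' (e' ≪≫ (GF.loc S).mapIso (asIso (hP.map w)) ≪≫ e.symm)

theorem IsBP.realises (hB : IsBP p B) : Realises B := by
  obtain ⟨ι, ⟨i⟩, n, e, -⟩ := hB.split
  have h1 := realises_loc hasModel_MUP e
  obtain ⟨S, inc, hinc, -⟩ := hP_wedge' (fun i => B.susp (2 * n i))
    (fun i => T1P.susp hB.t1 (n i))
  refine realises_susp (n := n i) (realises_retract h1 (stableEquiv.Q.map (inc i)) (S.pr i) ?_)
  rw [hm_Q, hinc, S.inj_pr]

/-- the lowest value -/
theorem IsBP.bottom' (hB : IsBP p B) : ∃ u : ((hP.obj B).h 0).obj (op (Test.R 0)),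
    IsLocalizedModule (primeTo p)
      (LinearMap.toSpanSingleton ℤ (((hP.obj B).h 0).obj (op (Test.R 0))) u) := by
  obtain ⟨u, hu⟩ := hB.bottom
  obtain ⟨e⟩ := piS_iso' 0 0
  let E : ((piS 0 (2 * 0)).obj B : Type) ≃ₗ[ℤ] (((hP.obj B).h 0).obj (op (Test.R 0)) : Type) :=
    (e.app B).addCommGroupIsoToAddEquiv.toIntLinearEquiv
  refine ⟨E u, ?_⟩
  have h1 : LinearMap.toSpanSingleton ℤ (((hP.obj B).h 0).obj (op (Test.R 0)) : Type) (E u) =
      E.toLinearMap ∘ₗ LinearMap.toSpanSingleton ℤ ((piS 0 (2 * 0)).obj B : Type) u := by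
    ext
    simp
  rw [h1]
  exact IsLocalizedModule.of_linearEquiv (primeTo p) _ E

/-- endomorphisms of `hP B` which are isomorphisms on the lowest value -/
theorem IsBP.isIso_of_bottom (hB : IsBP p B) (Φ : spec B ⟶ spec B)
    (h : IsIso ((GF.ev 0 (Test.R 0)).map (hm Φ))) : IsIso Φ := by
  refine hB.atomic Φ ?_
  obtain ⟨t, ht⟩ := piSHC_arrow' 0 0
  have h1 : (piSHC 0 (2 * 0)).map Φ =
      (t B).hom ≫ (GF.ev 0 (Test.R 0)).map (hm Φ) ≫ (t B).inv := by
    rw [← Category.assoc, ← ht, Category.assoc, Iso.hom_inv_id, Category.comp_id]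
  have h2 : IsIso ((piSHC 0 (2 * 0)).map Φ) := by
    rw [h1]
    infer_instance
  exact h2

theorem IsBP.locEnd (hp : p.Prime) (hB : IsBP p B) : LocEnd (hP.obj B) := by
  obtain ⟨u, hu⟩ := hB.bottom'
  refine ⟨fun h => (coprime_aux hp u hu).1 ?_, fun f g hfg => ?_⟩
  · have h1 := congrArg (fun t => GF.evm 0 (Test.R 0) t u) h
    exact h1
  · have h1 : ∀ x, GF.evm 0 (Test.R 0) f x + GF.evm 0 (Test.R 0) g x = x := fun x => by
      rw [← GF.evm_add, hfg, GF.evm_id]
    have key : ∀ f : hP.obj B ⟶ hP.obj B, Function.Bijective (GF.evm 0 (Test.R 0) f) →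
        IsIso f := by
      intro f hf
      obtain ⟨Φ, hΦ⟩ := hB.realises B f
      have h2 : IsIso ((GF.ev 0 (Test.R 0)).map (hm Φ)) := by
        rw [hΦ, ConcreteCategory.isIso_iff_bijective]
        exact hf
      have h3 := hB.isIso_of_bottom Φ h2
      rw [← hΦ]
      exact isIso_hm Φ
    rcases local_aux hp u hu (GF.evm 0 (Test.R 0) f) (GF.evm 0 (Test.R 0) g) h1 with h | h
    · exact Or.inl (key f h)
    · exact Or.inr (key g h)

/-- Integers which are invertible on periodic bordism are prime to `p`. -/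
theorem IsBP.coprime (hp : p.Prime) (hB : IsBP p B) {m : ℤ} (hm : Inv m (hP.obj MUP)) :
    m ∈ primeTo p := by
  obtain ⟨ι, ⟨i⟩, n, e, -⟩ := hB.split
  obtain ⟨S, -⟩ := hP_wedge' (fun i => B.susp (2 * n i)) (fun i => T1P.susp hB.t1 (n i))
  have h1 : Inv m (hP.obj (B.susp (2 * n i))) :=
    ((hm.map (GF.loc (primeTo p))).of_iso e.symm).retract (S.inj i) (S.pr i) (S.inj_pr i)
  have h2 := (inv_susp h1).map (GF.ev 0 (Test.R 0))
  obtain ⟨u, hu⟩ := hB.bottom'
  refine (coprime_aux hp u hu).2 m ?_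
  unfold Inv at h2
  rw [ConcreteCategory.isIso_iff_bijective] at h2
  exact h2

end BP

/-! ## The main statement -/

/-- the retract theorem -/
def RetractStatement : Prop :=
  ∀ {k : ℕ} (f : GenLoop (Fin 4) (Gr {1} k) (Gr.pt {1} k)), Generates f →
    ∃ (m : ℤ) (_ : IsIso (m • 𝟙 (hP.obj MUP))) (E' : GF) (q : hP.obj (SBSU f) ⟶ E')
      (_ : GF.IsLoc (Submonoid.powers m) q) (ι : Type) (_ : Countable ι) (A : GF)
      (_ : IsSum (fun _ : ι => hP.obj MUP) A) (i : E' ⟶ A) (r : A ⟶ E'), i ≫ r = 𝟙 E'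

theorem hcons {X Y : GF} (f : X ⟶ Y) (hX : X.Exact) (hY : Y.Exact)
    (h : ∀ t, Function.Bijective (sphHT.ev f : sphHT.E t X →+ sphHT.E t Y)) : IsIso f := by
  refine GF.isIso_of_spheres hX hY f fun b a => ?_
  rw [ConcreteCategory.isIso_iff_bijective]
  exact h (b, a)

theorem main_of_retract (hR : RetractStatement) : MainStatement := by
  intro p hp B hB k f hf
  obtain ⟨m, hm, E', q₁, hq₁, ι₀, hι₀, A, SA, i, r, hir⟩ := hR f hf
  obtain ⟨ι, hι, n, e, -⟩ := hB.split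
  obtain ⟨SW, -⟩ := hP_wedge' (fun i => B.susp (2 * n i)) (fun i => T1P.susp hB.t1 (n i))
  have hmp : Submonoid.powers m ≤ primeTo p :=
    Submonoid.powers_le.2 (hB.coprime hp hm)
  have h1 : IsIso ((GF.loc (primeTo p)).map q₁) := GF.loc_map_iso hmp q₁ hq₁
  -- the big sum
  let T : IsSum (fun a : Σ _ : ι₀, ι => hP.obj (B.susp (2 * n a.2)))
      ((GF.loc (primeTo p)).obj A) :=
    ((SA.loc (primeTo p)).congrS (fun _ => e.symm)).transS fun _ => SW
  -- compact model
  obtain ⟨G, hG, w, hw⟩ := hasModel_SBSU f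
  have iw : IsIso (hP.map w) := (stableEquiv_iff w).1 hw
  have iw' : IsIso (stableEquiv.Q.map w) := isIso_Q hw
  have hcount : Countable (Σ t, sphHT.E t ((GF.loc (primeTo p)).obj (hP.obj (SBSU f)))) := by
    have h2 : ∀ t, Countable (sphHT.E t ((GF.loc (primeTo p)).obj (hP.obj (SBSU f)))) := by
      intro t
      have h3 : Countable (((hP.obj G).h t.1).obj (op (Test.R t.2))) :=
        countable_of_compact hG t.1 (Test.R t.2)
      have h4 : Countable (((hP.obj (SBSU f)).h t.1).obj (op (Test.R t.2))) := by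
        have h5 : IsIso ((GF.ev t.1 (Test.R t.2)).map (hP.map w)) := inferInstance
        rw [ConcreteCategory.isIso_iff_bijective] at h5
        exact @Function.Surjective.countable _ _ h3 _ h5.2
      exact locF_countable (S := primeTo p) (((hP.obj (SBSU f)).h t.1).obj (op (Test.R t.2)))
    infer_instance
  have hret : ((GF.loc (primeTo p)).map q₁ ≫ (GF.loc (primeTo p)).map i) ≫
      (GF.loc (primeTo p)).map r ≫ inv ((GF.loc (primeTo p)).map q₁) = 𝟙 _ := by
    rw [Category.assoc, ← Category.assoc ((GF.loc (primeTo p)).map i), ← Functor.map_comp, hir,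
      CategoryTheory.Functor.map_id, Category.id_comp, IsIso.hom_inv_id]
  obtain ⟨J, hJ, φ, hφ⟩ := retract_iso (H := sphHT) (Ex := GF.Exact) hcons T.toCop
    (X := (GF.loc (primeTo p)).obj (hP.obj (SBSU f))) (fun a => locEnd_susp (hB.locEnd hp) (n a.2)) (GF.Exact.loc (hT (SBSU f)).exact) hcount
    ((GF.loc (primeTo p)).map q₁ ≫ (GF.loc (primeTo p)).map i)
    ((GF.loc (primeTo p)).map r ≫ inv ((GF.loc (primeTo p)).map q₁)) hret
  obtain ⟨SV, -⟩ := hP_wedge' (fun a : J => B.susp (2 * n (φ a).2))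
    (fun a => T1P.susp hB.t1 (n (φ a).2))
  obtain ⟨ψ⟩ : Nonempty ((GF.loc (primeTo p)).obj (hP.obj (SBSU f)) ≅
      hP.obj (wedge fun a : J => B.susp (2 * n (φ a).2))) :=
    hφ SV.toCop SV.toCop_desc (hT _).exact
  obtain ⟨Ψ, hΨ, -⟩ := realises_compact hG (wedge fun a : J => B.susp (2 * n (φ a).2))
    (hP.map w ≫ (GF.locη (primeTo p)).app (hP.obj (SBSU f)) ≫ ψ.hom)
  refine ⟨J, fun a => n (φ a).2, inv (stableEquiv.Q.map w) ≫ Ψ, (isPLoc_iff _).2 ?_⟩
  have h6 : Stab.hm (inv (stableEquiv.Q.map w) ≫ Ψ) =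
      (GF.locη (primeTo p)).app (hP.obj (SBSU f)) ≫ ψ.hom := by
    rw [hm_comp]
    refine hm_inv_comp (stableEquiv.Q.map w) _ _ ?_
    rw [hΨ, hm_Q]
  rw [h6]
  exact sphLoc_locη _ ψ

/-! ## Uniqueness -/

/-- isomorphic graded functors -/
def RR (X Y : Prespectrum) : Prop := Nonempty (hP.obj X ≅ hP.obj Y)

theorem RR.symm {X Y : Prespectrum} (h : RR X Y) : RR Y X := h.map Iso.symm

theorem RR.trans {X Y Z : Prespectrum} (h : RR X Y) (h' : RR Y Z) : RR X Z :=
  ⟨h.some ≪≫ h'.some⟩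

theorem RR.uu {X Y : Prespectrum} (h : RR X Y) : RR (uu X) (uu Y) :=
  ⟨up2I.app X ≪≫ GF.shiftF.mapIso h.some ≪≫ (up2I.app Y).symm⟩

theorem RR.dd {X Y : Prespectrum} (h : RR X Y) : RR (dd X) (dd Y) :=
  ⟨down2I.app X ≪≫ GF.unshiftF.mapIso h.some ≪≫ (down2I.app Y).symm⟩

theorem RR.of_uu {X Y : Prespectrum} (h : RR (Stab.uu X) (Stab.uu Y)) : RR X Y :=
  ⟨GF.shiftF.preimageIso ((up2I.app X).symm ≪≫ h.some ≪≫ up2I.app Y)⟩

theorem RR.of_dd {X Y : Prespectrum} (h : RR (Stab.dd X) Y) : RR X (Stab.uu Y) := h.uu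

/-- the relation -/
def QQ (X Y : Prespectrum) : Prop := ∃ k : ℕ, RR (uu^[k] X) Y ∨ RR X (uu^[k] Y)

theorem QQ.symm {X Y : Prespectrum} (h : QQ X Y) : QQ Y X := by
  obtain ⟨k, h | h⟩ := h
  · exact ⟨k, Or.inr h.symm⟩
  · exact ⟨k, Or.inl h.symm⟩

theorem QQ.of_uu {X Y : Prespectrum} (h : QQ (uu X) Y) : QQ X Y := by
  obtain ⟨k, h | h⟩ := h
  · exact ⟨k + 1, Or.inl h⟩
  · cases k with
    | zero => exact ⟨1, Or.inl h⟩
    | succ k =>
      refine ⟨k, Or.inr (RR.of_uu ?_)⟩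
      rw [Function.iterate_succ_apply'] at h
      exact h

theorem QQ.of_dd {X Y : Prespectrum} (h : QQ (dd X) Y) : QQ X Y := by
  obtain ⟨k, h | h⟩ := h
  · cases k with
    | zero => exact ⟨1, Or.inr (RR.of_dd h)⟩
    | succ k => exact ⟨k, Or.inl h⟩
  · refine ⟨k + 1, Or.inr ?_⟩
    rw [Function.iterate_succ_apply']
    exact RR.of_dd h

theorem QQ.of_susp {X Y : Prespectrum} {m n : ℤ} (h : QQ (X.susp (2 * m)) (Y.susp (2 * n))) :
    QQ X Y := by
  have h1 : QQ X (Y.susp (2 * n)) := susp_ind' (P := fun Z => QQ Z (Y.susp (2 * n)))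
    (fun _ h => h.of_uu) (fun _ h => h.of_dd) h
  have h2 : QQ Y X := susp_ind' (P := fun Z => QQ Z X)
    (fun _ h => h.of_uu) (fun _ h => h.of_dd) h1.symm
  exact h2.symm

/-- the values on the point vanish -/
def VV (c : ℕ) (X : Prespectrum) : Prop := Subsingleton (((hP.obj X).h c).obj (op (Test.R 0)))

theorem VV.of_iso {c : ℕ} {X Y : Prespectrum} (h : RR X Y) (hX : VV c X) : VV c Y := by
  obtain ⟨e⟩ := h
  have h1 : IsIso ((GF.ev c (Test.R 0)).map e.hom) := inferInstance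
  rw [ConcreteCategory.isIso_iff_bijective] at h1
  have h2 : Subsingleton (((hP.obj X).h c).obj (op (Test.R 0))) := hX
  exact @Function.Surjective.subsingleton _ _ _ h2 h1.2

theorem VV.uu {c : ℕ} {X : Prespectrum} (h : VV (c + 1) X) : VV c (uu X) := by
  have h1 : IsIso ((GF.ev c (Test.R 0)).map (up2I.app X).inv) := inferInstance
  rw [ConcreteCategory.isIso_iff_bijective] at h1
  have h2 : Subsingleton (((hP.obj X).h (c + 1)).obj (op (Test.R 0))) := h
  exact @Function.Surjective.subsingleton _ _ _ h2 h1.2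

theorem VV.iter (k : ℕ) : ∀ {c : ℕ} {X : Prespectrum}, VV (c + k) X → VV c (Stab.uu^[k] X) := by
  induction k with
  | zero => exact fun h => h
  | succ k ih =>
    intro c X h
    rw [Function.iterate_succ_apply]
    exact ih (VV.uu h)

theorem IsBP.VV {p : ℕ} {B : Prespectrum} (hB : IsBP p B) (k : ℕ) : VV (k + 1) B := by
  obtain ⟨e⟩ := piS_iso' 0 (k + 1)
  have h1 : IsIso (e.hom.app B) := inferInstance
  rw [ConcreteCategory.isIso_iff_bijective] at h1
  have h2 : Subsingleton ((piS 0 (2 * (k + 1))).obj B) :=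
    ⟨fun x y => by rw [hB.conn 0 (2 * (k + 1)) (by omega) x, hB.conn 0 (2 * (k + 1)) (by omega) y]⟩
  exact h1.2.subsingleton

theorem IsBP.not_VV {p : ℕ} (hp : p.Prime) {B : Prespectrum} (hB : IsBP p B) :
    ¬ Stab.VV 0 B := by
  intro h
  obtain ⟨u, hu⟩ := hB.bottom'
  refine (coprime_aux hp u hu).1 ?_
  have : Subsingleton (((hP.obj B).h 0).obj (op (Test.R 0))) := h
  exact Subsingleton.elim _ _

theorem no_shift {p : ℕ} (hp : p.Prime) {B B' : Prespectrum} (hB : IsBP p B) (hB' : IsBP p B')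
    (k : ℕ) (h : RR (uu^[k] B) B') : k = 0 := by
  cases k with
  | zero => rfl
  | succ k =>
    exfalso
    refine hB'.not_VV hp (VV.of_iso h (VV.iter (k + 1) ?_))
    rw [zero_add]
    exact hB.VV k

theorem iso_of_RR {p : ℕ} {B B' : Prespectrum} (hB : IsBP p B) (hB' : IsBP p B')
    (h : RR B B') : Nonempty (spec B ≅ spec B') := by
  obtain ⟨θ⟩ := h
  obtain ⟨Φ, hΦ⟩ := hB.realises B' θ.hom
  obtain ⟨Ψ, hΨ⟩ := hB'.realises B θ.inv
  have h1 : IsIso (Φ ≫ Ψ) := by
    refine hB.isIso_of_bottom _ ?_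
    rw [hm_comp, hΦ, hΨ, Iso.hom_inv_id]
    infer_instance
  have h2 : IsIso (Ψ ≫ Φ) := by
    refine hB'.isIso_of_bottom _ ?_
    rw [hm_comp, hΦ, hΨ, Iso.inv_hom_id]
    infer_instance
  have h3 : Φ ≫ Ψ ≫ inv (Φ ≫ Ψ) = 𝟙 _ := by
    rw [← Category.assoc, IsIso.hom_inv_id]
  have h4 : inv (Ψ ≫ Φ) ≫ Ψ ≫ Φ = 𝟙 _ := IsIso.inv_hom_id _
  have h5 : Ψ ≫ inv (Φ ≫ Ψ) = inv (Ψ ≫ Φ) ≫ Ψ := by
    calc Ψ ≫ inv (Φ ≫ Ψ) = (inv (Ψ ≫ Φ) ≫ Ψ ≫ Φ) ≫ Ψ ≫ inv (Φ ≫ Ψ) := by
          rw [h4, Category.id_comp]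
      _ = inv (Ψ ≫ Φ) ≫ Ψ ≫ (Φ ≫ Ψ ≫ inv (Φ ≫ Ψ)) := by simp only [Category.assoc]
      _ = inv (Ψ ≫ Φ) ≫ Ψ := by rw [h3, Category.comp_id]
  exact ⟨⟨Φ, Ψ ≫ inv (Φ ≫ Ψ), h3, by rw [h5, Category.assoc, h4]⟩⟩

theorem unique : UniqueStatement := by
  intro p hp B B' hB hB'
  obtain ⟨ι, ⟨i⟩, n, e, -⟩ := hB.split
  obtain ⟨ι', -, n', e', -⟩ := hB'.split
  obtain ⟨S, -⟩ := hP_wedge' (fun i => B.susp (2 * n i)) (fun i => T1P.susp hB.t1 (n i))
  obtain ⟨S', -⟩ := hP_wedge' (fun i => B'.susp (2 * n' i)) (fun i => T1P.susp hB'.t1 (n' i))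
  obtain ⟨j, hj⟩ := unit_lemma (H := sphHT) (Ex := GF.Exact) hcons (M := hP.obj (B.susp (2 * n i)))
    (hT _).exact S'.toCop (fun j => locEnd_susp (hB'.locEnd hp) (n' j))
    (locEnd_susp (hB.locEnd hp) (n i)) (S.inj i ≫ e.hom ≫ e'.inv) (e'.hom ≫ e.inv ≫ S.pr i) (by
      simp only [Category.assoc, Iso.inv_hom_id_assoc, Iso.hom_inv_id_assoc]
      exact S.inj_pr i)
  obtain ⟨k, h | h⟩ := QQ.of_susp (X := B) (Y := B') (m := n i) (n := n' j) ⟨0, Or.inl hj⟩
  · obtain rfl := no_shift hp hB hB' k h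
    exact iso_of_RR hB hB' h
  · obtain rfl := no_shift hp hB' hB k h.symm
    exact iso_of_RR hB hB' h

end Pool.Agent.Helper1.Stab
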