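import Mathlib

set_option autoImplicit false

/-!
# Retracts of coproducts of objects with local endomorphism rings

Abstract theorem: in a preadditive category with a jointly conservative family of additive
functors `E t` to abelian groups (homotopy groups) let `W` be a coproduct of objects `A i` with
local endomorphism rings such that every element of `E t W` has finite support. If the set of all
elements of the groups `E t W` is countable, then every retract of `W` is a coproduct of a family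
`A (φ a)`.
-/

open CategoryTheory

universe v u w

namespace Pool.Agent.Helper56.BSU

variable {C : Type u} [Category.{v} C] [Preadditive C]

/-- A family of additive functors to abelian groups. -/
structure HT (C : Type u) [Category.{v} C] [Preadditive C] (T : Type) where
  /-- the elements -/
  E : T → C → Type w
  /-- group structure -/
  grp : ∀ t X, AddCommGroup (E t X)
  /-- the action of the morphisms -/
  ev : ∀ {t : T} {X Y : C}, (X ⟶ Y) → E t X →+ E t Y
  ev_id : ∀ {t : T} {X : C} (x : E t X), ev (𝟙 X) x = x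
  ev_comp : ∀ {t : T} {X Y Z : C} (f : X ⟶ Y) (g : Y ⟶ Z) (x : E t X), ev (f ≫ g) x = ev g (ev f x)
  ev_add : ∀ {t : T} {X Y : C} (f g : X ⟶ Y) (x : E t X), ev (f + g) x = ev f x + ev g x

attribute [instance] HT.grp

variable {T : Type} (H : HT.{v, u, w} C T)

namespace HT

variable {H}

theorem ev_zero {t : T} {X Y : C} (x : H.E t X) : H.ev (0 : X ⟶ Y) x = 0 := by
  have h := H.ev_add (0 : X ⟶ Y) 0 x
  rw [add_zero] at h
  simpa using h

theorem ev_neg {t : T} {X Y : C} (f : X ⟶ Y) (x : H.E t X) : H.ev (-f) x = - H.ev f x := by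
  have h := H.ev_add f (-f) x
  rw [add_neg_cancel, ev_zero] at h
  exact (neg_eq_of_add_eq_zero_right h.symm).symm

theorem ev_sub {t : T} {X Y : C} (f g : X ⟶ Y) (x : H.E t X) :
    H.ev (f - g) x = H.ev f x - H.ev g x := by
  rw [sub_eq_add_neg, H.ev_add, ev_neg, sub_eq_add_neg]

theorem ev_sum {t : T} {X Y : C} {κ : Type*} (F : Finset κ) (f : κ → (X ⟶ Y)) (x : H.E t X) :
    H.ev (∑ i ∈ F, f i) x = ∑ i ∈ F, H.ev (f i) x := by
  classical
  induction F using Finset.induction_on with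
  | empty => simp [ev_zero]
  | insert a s ha ih => rw [Finset.sum_insert ha, Finset.sum_insert ha, H.ev_add, ih]

end HT

/-- `W` is a coproduct of the `A i`, and the elements of `E t W` have finite supports. -/
structure Cop {ι : Type} (A : ι → C) where
  /-- the object -/
  W : C
  /-- inclusions -/
  inc : ∀ i, A i ⟶ W
  /-- projections -/
  prj : ∀ i, W ⟶ A i
  inc_prj : ∀ i, inc i ≫ prj i = 𝟙 (A i)
  inc_prj_ne : ∀ i j, i ≠ j → inc i ≫ prj j = 0
  supp : ∀ (t : T) (x : H.E t W), ∃ F : Finset ι, x = ∑ i ∈ F, H.ev (inc i) (H.ev (prj i) x)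

/-- Maps out of `W` can be given by their components. -/
def Cop.Desc {H : HT.{v, u, w} C T} {ι : Type} {A : ι → C} (W : Cop H A) : Prop :=
  ∀ {X : C} (f : ∀ i, A i ⟶ X), ∃ Φ : W.W ⟶ X, ∀ i, W.inc i ≫ Φ = f i

/-- `h` is the projection onto a finite sum of objects `A i`. -/
def FS {ι : Type} (A : ι → C) (W : C) (h : W ⟶ W) : Prop :=
  ∃ (K : Type) (_ : Fintype K) (φ : K → ι) (j : ∀ k, A (φ k) ⟶ W) (q : ∀ k, W ⟶ A (φ k)),
    (∀ k, j k ≫ q k = 𝟙 _) ∧ (∀ k l, k ≠ l → j k ≫ q l = 0) ∧ ∑ k, q k ≫ j k = h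

/-- The local condition. -/
def LocEnd (M : C) : Prop := 𝟙 M ≠ 0 ∧ ∀ f g : M ⟶ M, f + g = 𝟙 M → IsIso f ∨ IsIso g

section FSlemmas

variable {ι : Type} {A : ι → C} {W : C}

theorem FS.zero : FS A W 0 :=
  ⟨Empty, inferInstance, fun k => k.elim, fun k => k.elim, fun k => k.elim, fun k => k.elim,
    fun k => k.elim, by simp⟩

theorem FS.add {h : W ⟶ W} (hh : FS A W h) (i : ι) (j : A i ⟶ W) (q : W ⟶ A i)
    (hjq : j ≫ q = 𝟙 _) (h1 : h ≫ q = 0) (h2 : j ≫ h = 0) : FS A W (h + q ≫ j) := by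
  obtain ⟨K, hK, φ, j', q', a1, a2, a3⟩ := hh
  have b1 : ∀ k, j' k ≫ h = j' k := by
    intro k
    rw [← a3, Preadditive.comp_sum, Finset.sum_eq_single k]
    · rw [← Category.assoc, a1, Category.id_comp]
    · intro l _ hl
      rw [← Category.assoc, a2 k l hl.symm, Limits.zero_comp]
    · intro hk
      exact absurd (Finset.mem_univ k) hk
  have b2 : ∀ k, h ≫ q' k = q' k := by
    intro k
    rw [← a3, Preadditive.sum_comp, Finset.sum_eq_single k]
    · rw [Category.assoc, a1, Category.comp_id]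
    · intro l _ hl
      rw [Category.assoc, a2 l k hl, Limits.comp_zero]
    · intro hk
      exact absurd (Finset.mem_univ k) hk
  refine ⟨Option K, inferInstance, fun o => o.elim i φ, fun o => match o with
    | none => j
    | some k => j' k, fun o => match o with
    | none => q
    | some k => q' k, ?_, ?_, ?_⟩
  · intro o
    match o with
    | none => exact hjq
    | some k => exact a1 k
  · intro o o' hne
    match o, o' with
    | none, none => exact absurd rfl hne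
    | none, some k =>
      change j ≫ q' k = 0
      rw [← b2 k, ← Category.assoc, h2, Limits.zero_comp]
    | some k, none =>
      change j' k ≫ q = 0
      rw [← b1 k, Category.assoc, h1, Limits.comp_zero]
    | some k, some l => exact a2 k l (fun h => hne (congrArg some h))
  · rw [Fintype.sum_option]
    change q ≫ j + ∑ k, q' k ≫ j' k = _
    rw [a3, add_comm]

theorem FS.conj {h h' : W ⟶ W} (hh : FS A W h) (h1 : h ≫ h' = h') (h2 : h' ≫ h = h)
    : FS A W h' := by
  obtain ⟨K, hK, φ, j, q, a1, a2, a3⟩ := hh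
  have b1 : ∀ k, j k ≫ h = j k := by
    intro k
    rw [← a3, Preadditive.comp_sum, Finset.sum_eq_single k]
    · rw [← Category.assoc, a1, Category.id_comp]
    · intro l _ hl
      rw [← Category.assoc, a2 k l hl.symm, Limits.zero_comp]
    · intro hk
      exact absurd (Finset.mem_univ k) hk
  have b2 : ∀ k, h ≫ q k = q k := by
    intro k
    rw [← a3, Preadditive.sum_comp, Finset.sum_eq_single k]
    · rw [Category.assoc, a1, Category.comp_id]
    · intro l _ hl
      rw [Category.assoc, a2 l k hl, Limits.comp_zero]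
    · intro hk
      exact absurd (Finset.mem_univ k) hk
  have hid : h' ≫ h' = h' := by
    calc h' ≫ h' = h' ≫ (h ≫ h') := by rw [h1]
      _ = (h' ≫ h) ≫ h' := by rw [Category.assoc]
      _ = h' := by rw [h2, h1]
  have b3 : ∀ k l, (j k ≫ h') ≫ (h' ≫ q l) = j k ≫ q l := by
    intro k l
    calc (j k ≫ h') ≫ (h' ≫ q l) = j k ≫ (h' ≫ h') ≫ q l := by simp only [Category.assoc]
      _ = j k ≫ h' ≫ q l := by rw [hid]
      _ = j k ≫ h' ≫ (h ≫ q l) := by rw [b2]
      _ = j k ≫ (h' ≫ h) ≫ q l := by simp only [Category.assoc]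
      _ = j k ≫ q l := by rw [h2, ← Category.assoc, b1]
  refine ⟨K, hK, φ, fun k => j k ≫ h', fun k => h' ≫ q k, ?_, ?_, ?_⟩
  · intro k
    rw [b3, a1]
  · intro k l hkl
    rw [b3, a2 k l hkl]
  · calc ∑ k, (h' ≫ q k) ≫ (j k ≫ h') = h' ≫ (∑ k, q k ≫ j k) ≫ h' := by
          rw [Preadditive.sum_comp, Preadditive.comp_sum]
          apply Finset.sum_congr rfl
          intro k _
          simp only [Category.assoc]
      _ = (h' ≫ h) ≫ h' := by rw [a3, Category.assoc]
      _ = h' := by rw [h2, h1]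

end FSlemmas


section Exchange

variable {H} {ι : Type} {A : ι → C}

/-- The state of the exchange process: the sum of the `A i`, `i ∈ S`, and the images of the
idempotents `p`, `y` is the whole object; the image of `p` is in the image of `e`; the rest of the
image of `e` is a finite sum of objects `A i`. -/
structure St (W : Cop H A) (e : W.W ⟶ W.W) (S : Finset ι) (p y : W.W ⟶ W.W) : Prop where
  pp : p ≫ p = p
  yy : y ≫ y = y
  py : p ≫ y = 0
  yp : y ≫ p = 0
  pe : p ≫ e = p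
  ip : ∀ i ∈ S, W.inc i ≫ p = 0
  iy : ∀ i ∈ S, W.inc i ≫ y = 0
  rest : ∀ i, i ∉ S → W.prj i = p ≫ W.prj i + y ≫ W.prj i
  fs : FS A W.W (e - e ≫ p)

theorem St.zero (W : Cop H A) {e : W.W ⟶ W.W} (he : e ≫ e = e) : St W e ∅ e (𝟙 _ - e) where
  pp := he
  yy := by
    simp only [Preadditive.comp_sub, Preadditive.sub_comp, Category.comp_id, Category.id_comp, he,
      sub_self, sub_zero]
  py := by rw [Preadditive.comp_sub, Category.comp_id, he, sub_self]
  yp := by rw [Preadditive.sub_comp, Category.id_comp, he, sub_self]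
  pe := he
  ip := fun i hi => absurd hi (Finset.notMem_empty i)
  iy := fun i hi => absurd hi (Finset.notMem_empty i)
  rest := fun i _ => by
    rw [← Preadditive.add_comp, add_sub_cancel, Category.id_comp]
  fs := by rw [he, sub_self]; exact FS.zero

/-- The algebra of one step: `p` and `y` play symmetric roles here. -/
theorem step_alg (W : Cop H A) {S : Finset ι} {p y : W.W ⟶ W.W} {i : ι} (hi : i ∉ S)
    (pp : p ≫ p = p) (yy : y ≫ y = y) (py : p ≫ y = 0) (yp : y ≫ p = 0)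
    (ip : ∀ i ∈ S, W.inc i ≫ p = 0) (iy : ∀ i ∈ S, W.inc i ≫ y = 0)
    (rest : ∀ i, i ∉ S → W.prj i = p ≫ W.prj i + y ≫ W.prj i) (u' : A i ⟶ A i)
    (hu : (W.inc i ≫ p ≫ W.prj i) ≫ u' = 𝟙 _) (hu' : u' ≫ (W.inc i ≫ p ≫ W.prj i) = 𝟙 _)
    (π : W.W ⟶ W.W) (hπ : π = p ≫ W.prj i ≫ u' ≫ W.inc i) :
    (p - π ≫ p) ≫ (p - π ≫ p) = p - π ≫ p ∧ (y - π ≫ y) ≫ (y - π ≫ y) = y - π ≫ y ∧
    (p - π ≫ p) ≫ (y - π ≫ y) = 0 ∧ (y - π ≫ y) ≫ (p - π ≫ p) = 0 ∧
    (∀ j, j = i ∨ j ∈ S → W.inc j ≫ (p - π ≫ p) = 0) ∧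
    (∀ j, j = i ∨ j ∈ S → W.inc j ≫ (y - π ≫ y) = 0) ∧
    (∀ j, ¬ (j = i ∨ j ∈ S) → W.prj j = (p - π ≫ p) ≫ W.prj j + (y - π ≫ y) ≫ W.prj j) ∧
    π ≫ π = π ∧ p ≫ π = π ∧ y ≫ π = 0 := by
  have e1 : p ≫ π = π := by rw [hπ, ← Category.assoc p p, pp]
  have e2 : y ≫ π = 0 := by rw [hπ, ← Category.assoc y p, yp, Limits.zero_comp]
  have e3 : W.inc i ≫ π = W.inc i := by
    rw [hπ]
    calc W.inc i ≫ p ≫ W.prj i ≫ u' ≫ W.inc i =
          ((W.inc i ≫ p ≫ W.prj i) ≫ u') ≫ W.inc i := by simp only [Category.assoc]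
      _ = W.inc i := by rw [hu, Category.id_comp]
  have e4 : π ≫ π = π := by
    calc π ≫ π = (p ≫ W.prj i ≫ u') ≫ (W.inc i ≫ π) := by
          conv_lhs => rw [hπ]
          simp only [Category.assoc]
          rw [← hπ]
      _ = π := by rw [e3, hπ]; simp only [Category.assoc]
  have e5 : ∀ j ∈ S, W.inc j ≫ π = 0 := by
    intro j hj
    rw [hπ, ← Category.assoc, ip j hj, Limits.zero_comp]
  have e6 : ∀ j, j ≠ i → π ≫ W.prj j = 0 := by
    intro j hj
    rw [hπ]
    simp only [Category.assoc]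
    rw [W.inc_prj_ne i j (Ne.symm hj)]
    simp
  refine ⟨?_, ?_, ?_, ?_, ?_, ?_, ?_, e4, e1, e2⟩
  · simp only [Preadditive.sub_comp, Preadditive.comp_sub, Category.assoc, pp]
    rw [← Category.assoc p π p, e1, ← Category.assoc π π p, e4]
    abel
  · simp only [Preadditive.sub_comp, Preadditive.comp_sub, Category.assoc, yy]
    rw [← Category.assoc y π y, e2]
    simp
  · simp only [Preadditive.sub_comp, Preadditive.comp_sub, Category.assoc, py]
    rw [← Category.assoc p π y, e1, ← Category.assoc π π y, e4]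
    simp
  · simp only [Preadditive.sub_comp, Preadditive.comp_sub, Category.assoc, yp]
    rw [← Category.assoc y π p, e2]
    simp
  · rintro j (rfl | hj)
    · rw [Preadditive.comp_sub, ← Category.assoc, e3, sub_self]
    · rw [Preadditive.comp_sub, ← Category.assoc, e5 j hj, ip j hj]
      simp
  · rintro j (rfl | hj)
    · rw [Preadditive.comp_sub, ← Category.assoc, e3, sub_self]
    · rw [Preadditive.comp_sub, ← Category.assoc, e5 j hj, iy j hj]
      simp
  · intro j hj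
    push Not at hj
    have h1 := rest j hj.2
    have h2 : π ≫ p ≫ W.prj j + π ≫ y ≫ W.prj j = 0 := by
      rw [← Preadditive.comp_add, ← h1, e6 j hj.1]
    simp only [Preadditive.sub_comp, Category.assoc]
    calc W.prj j = (p ≫ W.prj j + y ≫ W.prj j) - (π ≫ p ≫ W.prj j + π ≫ y ≫ W.prj j) := by
          rw [h2, sub_zero, ← h1]
      _ = _ := by abel

open Classical in
theorem St.step (W : Cop H A) {e : W.W ⟶ W.W} (he : e ≫ e = e) {S : Finset ι}
    {p y : W.W ⟶ W.W} (h : St W e S p y) {i : ι} (hi : i ∉ S) (hloc : LocEnd (A i)) :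
    ∃ p' y', St W e (insert i S) p' y' := by
  have hsum : W.inc i ≫ p ≫ W.prj i + W.inc i ≫ y ≫ W.prj i = 𝟙 _ := by
    rw [← Preadditive.comp_add, ← h.rest i hi, W.inc_prj]
  rcases hloc.2 _ _ hsum with hX | hY
  · obtain ⟨u', hu1, hu2⟩ := hX
    obtain ⟨a1, a2, a3, a4, a5, a6, a7, a8, a9, a10⟩ := step_alg W hi h.pp h.yy h.py h.yp h.ip h.iy
      h.rest u' hu1 hu2 _ rfl
    set π := p ≫ W.prj i ≫ u' ≫ W.inc i with hπ
    refine ⟨p - π ≫ p, y - π ≫ y, a1, a2, a3, a4, ?_, ?_, ?_, ?_, ?_⟩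
    · rw [Preadditive.sub_comp, Category.assoc, h.pe]
    · intro j hj
      exact a5 j (Finset.mem_insert.1 hj)
    · intro j hj
      exact a6 j (Finset.mem_insert.1 hj)
    · intro j hj
      exact a7 j (fun h => hj (Finset.mem_insert.2 h))
    · have h1 := h.fs.add i (W.inc i ≫ p) (e ≫ p ≫ W.prj i ≫ u') ?_ ?_ ?_
      · convert h1 using 1
        rw [hπ]
        simp only [Preadditive.comp_sub, Category.assoc]
        abel
      · calc (W.inc i ≫ p) ≫ e ≫ p ≫ W.prj i ≫ u' =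
              W.inc i ≫ (p ≫ e) ≫ p ≫ W.prj i ≫ u' := by simp only [Category.assoc]
          _ = W.inc i ≫ (p ≫ p) ≫ W.prj i ≫ u' := by rw [h.pe]; simp only [Category.assoc]
          _ = (W.inc i ≫ p ≫ W.prj i) ≫ u' := by rw [h.pp]; simp only [Category.assoc]
          _ = 𝟙 _ := hu1
      · have h2 : (e - e ≫ p) ≫ (e ≫ p) = 0 := by
          rw [Preadditive.sub_comp, ← Category.assoc e e p, he, Category.assoc e p (e ≫ p),
            ← Category.assoc p e p, h.pe, h.pp, sub_self]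
        calc (e - e ≫ p) ≫ e ≫ p ≫ W.prj i ≫ u' =
              ((e - e ≫ p) ≫ (e ≫ p)) ≫ W.prj i ≫ u' := by simp only [Category.assoc]
          _ = 0 := by rw [h2, Limits.zero_comp]
      · rw [Preadditive.comp_sub, Category.assoc, h.pe, Category.assoc, ← Category.assoc p e p,
          h.pe, h.pp, sub_self]
  · obtain ⟨u', hu1, hu2⟩ := hY
    have hrest : ∀ j, j ∉ S → W.prj j = y ≫ W.prj j + p ≫ W.prj j := fun j hj => by
      rw [add_comm]
      exact h.rest j hj
    obtain ⟨a2, a1, a4, a3, a6, a5, a7, a8, a9, a10⟩ := step_alg W hi h.yy h.pp h.yp h.py h.iy h.ip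
      hrest u' hu1 hu2 _ rfl
    set π := y ≫ W.prj i ≫ u' ≫ W.inc i with hπ
    have hpe : (p - π ≫ p) ≫ e = p - π ≫ p := by
      rw [Preadditive.sub_comp, Category.assoc, h.pe]
    refine ⟨p - π ≫ p, y - π ≫ y, a1, a2, a3, a4, hpe, ?_, ?_, ?_, ?_⟩
    · intro j hj
      exact a5 j (Finset.mem_insert.1 hj)
    · intro j hj
      exact a6 j (Finset.mem_insert.1 hj)
    · intro j hj
      rw [add_comm]
      exact a7 j (fun h => hj (Finset.mem_insert.2 h))
    · have b1 : (p - π ≫ p) ≫ p = p - π ≫ p := by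
        rw [Preadditive.sub_comp, Category.assoc, h.pp]
      have b2 : p ≫ (p - π ≫ p) = p := by
        rw [Preadditive.comp_sub, h.pp, ← Category.assoc p π p, a10, Limits.zero_comp, sub_zero]
      set p' := p - π ≫ p with hp'
      refine h.fs.conj ?_ ?_
      · have c1 : e ≫ e ≫ p' = e ≫ p' := by rw [← Category.assoc, he]
        have c2 : p ≫ e ≫ p' = p := by rw [← Category.assoc, h.pe, b2]
        simp only [Preadditive.sub_comp, Preadditive.comp_sub, Category.assoc, he, c1, h.pe, c2]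
        abel
      · have c1 : e ≫ e ≫ p = e ≫ p := by rw [← Category.assoc, he]
        have c2 : p' ≫ e ≫ p = p' := by rw [← Category.assoc, hpe, b1]
        simp only [Preadditive.sub_comp, Preadditive.comp_sub, Category.assoc, he, c1, hpe, c2]
        abel

theorem St.exists (W : Cop H A) {e : W.W ⟶ W.W} (he : e ≫ e = e) (hloc : ∀ i, LocEnd (A i))
    (S : Finset ι) : ∃ p y, St W e S p y := by
  classical
  induction S using Finset.induction_on with
  | empty => exact ⟨_, _, St.zero W he⟩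
  | insert i S hi ih =>
    obtain ⟨p, y, h⟩ := ih
    obtain ⟨p', y', h'⟩ := h.step W he hi (hloc i)
    exact ⟨p', y', by convert h'⟩

/-- Every element fixed by the idempotent `e` is fixed by an idempotent `h ≤ e` which is the projection
onto a finite sum of objects `A i`. -/
theorem exchange (W : Cop H A) {e : W.W ⟶ W.W} (he : e ≫ e = e) (hloc : ∀ i, LocEnd (A i))
    {t : T} (x : H.E t W.W) (hx : H.ev e x = x) :
    ∃ h : W.W ⟶ W.W, FS A W.W h ∧ h ≫ h = h ∧ h ≫ e = h ∧ e ≫ h = h ∧ H.ev h x = x := by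
  obtain ⟨S, hS⟩ := W.supp t x
  obtain ⟨p, y, h⟩ := St.exists W he hloc S
  have h1 : H.ev p x = 0 := by
    rw [hS, map_sum]
    refine Finset.sum_eq_zero fun i hi => ?_
    rw [← H.ev_comp, h.ip i hi, HT.ev_zero]
  have c1 : e ≫ e ≫ p = e ≫ p := by rw [← Category.assoc, he]
  have c2 : p ≫ e ≫ p = p := by rw [← Category.assoc, h.pe, h.pp]
  refine ⟨e - e ≫ p, h.fs, ?_, ?_, ?_, ?_⟩
  · simp only [Preadditive.sub_comp, Preadditive.comp_sub, Category.assoc, he, c1, c2, h.pe]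
    abel
  · rw [Preadditive.sub_comp, Category.assoc, he, h.pe]
  · rw [Preadditive.comp_sub, he, ← Category.assoc, he]
  · rw [HT.ev_sub, H.ev_comp, hx, h1, sub_zero]

end Exchange


section Retract

variable {H} {ι : Type} {A : ι → C}

/-- One step of the exhaustion. -/
theorem chain_step (W : Cop H A) {e : W.W ⟶ W.W} (he : e ≫ e = e) (hloc : ∀ i, LocEnd (A i))
    (o : Option (Σ t, H.E t W.W)) (E : W.W ⟶ W.W) (hE : E ≫ E = E) (hEe : E ≫ e = E)
    (heE : e ≫ E = E) : ∃ E' : W.W ⟶ W.W, (E' ≫ E' = E' ∧ E' ≫ e = E' ∧ e ≫ E' = E') ∧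
      (FS A W.W (E' - E) ∧ E ≫ E' = E ∧ E' ≫ E = E) ∧
      ∀ t (x : H.E t W.W), o = some ⟨t, x⟩ → H.ev e x = x → H.ev E' x = x := by
  by_cases ho : ∃ (t : T) (x : H.E t W.W), o = some ⟨t, x⟩ ∧ H.ev e x = x
  · obtain ⟨t, x, rfl, hx⟩ := ho
    have he' : (e - E) ≫ (e - E) = e - E := by
      simp only [Preadditive.sub_comp, Preadditive.comp_sub, he, hE, hEe, heE, sub_self, sub_zero]
    obtain ⟨h, h1, h2, h3, h4, h5⟩ := exchange W he' hloc (H.ev (e - E) x)
      (by rw [← H.ev_comp, he'])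
    have hhE : h ≫ E = 0 := by
      rw [← h3, Category.assoc, Preadditive.sub_comp, heE, hE, sub_self, Limits.comp_zero]
    have hEh : E ≫ h = 0 := by
      rw [← h4, ← Category.assoc, Preadditive.comp_sub, hEe, hE, sub_self, Limits.zero_comp]
    have hhe : h ≫ e = h := by
      have h6 := h3
      rw [Preadditive.comp_sub, hhE, sub_zero] at h6
      exact h6
    have heh : e ≫ h = h := by
      have h6 := h4
      rw [Preadditive.sub_comp, hEh, sub_zero] at h6
      exact h6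
    refine ⟨E + h, ⟨?_, ?_, ?_⟩, ⟨?_, ?_, ?_⟩, ?_⟩
    · simp only [Preadditive.add_comp, Preadditive.comp_add, hE, hEh, hhE, h2, add_zero, zero_add]
    · rw [Preadditive.add_comp, hEe, hhe]
    · rw [Preadditive.comp_add, heE, heh]
    · rw [add_sub_cancel_left]
      exact h1
    · rw [Preadditive.comp_add, hE, hEh, add_zero]
    · rw [Preadditive.add_comp, hE, hhE, add_zero]
    · rintro t' x' h6 -
      rw [Option.some.injEq, Sigma.mk.injEq] at h6
      obtain ⟨rfl, h7⟩ := h6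
      have h8 := eq_of_heq h7
      subst h8
      have h9 : H.ev h x = x - H.ev E x := by
        rw [← h4, H.ev_comp, h5, HT.ev_sub, hx]
      rw [H.ev_add, h9, add_sub_cancel]
  · refine ⟨E, ⟨hE, hEe, heE⟩, ⟨?_, hE, hE⟩, fun t x h1 h2 => absurd ⟨t, x, h1, h2⟩ ho⟩
    rw [sub_self]
    exact FS.zero

/-- Countably many steps. -/
theorem chain (W : Cop H A) {e : W.W ⟶ W.W} (he : e ≫ e = e) (hloc : ∀ i, LocEnd (A i))
    (f : ℕ → Option (Σ t, H.E t W.W)) :
    ∃ E : ℕ → (W.W ⟶ W.W), E 0 = 0 ∧ (∀ k, E k ≫ E k = E k ∧ E k ≫ e = E k ∧ e ≫ E k = E k) ∧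
      (∀ k, FS A W.W (E (k + 1) - E k) ∧ E k ≫ E (k + 1) = E k ∧ E (k + 1) ≫ E k = E k) ∧
      ∀ k t (x : H.E t W.W), f k = some ⟨t, x⟩ → H.ev e x = x → H.ev (E (k + 1)) x = x := by
  have hstep : ∀ (o : Option (Σ t, H.E t W.W))
      (E : {E : W.W ⟶ W.W // E ≫ E = E ∧ E ≫ e = E ∧ e ≫ E = E}),
      ∃ E' : {E : W.W ⟶ W.W // E ≫ E = E ∧ E ≫ e = E ∧ e ≫ E = E},
      (FS A W.W (E'.1 - E.1) ∧ E.1 ≫ E'.1 = E.1 ∧ E'.1 ≫ E.1 = E.1) ∧
      ∀ t (x : H.E t W.W), o = some ⟨t, x⟩ → H.ev e x = x → H.ev E'.1 x = x := by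
    intro o E
    obtain ⟨E', h1, h2, h3⟩ := chain_step W he hloc o E.1 E.2.1 E.2.2.1 E.2.2.2
    exact ⟨⟨E', h1⟩, h2, h3⟩
  choose g hg1 hg2 using hstep
  let E : ℕ → {E : W.W ⟶ W.W // E ≫ E = E ∧ E ≫ e = E ∧ e ≫ E = E} := fun k =>
    Nat.rec ⟨0, by simp⟩ (fun k E => g (f k) E) k
  exact ⟨fun k => (E k).1, rfl, fun k => (E k).2, fun k => hg1 (f k) (E k),
    fun k t x h1 h2 => hg2 (f k) (E k) t x h1 h2⟩

theorem FS.split {W : C} {h : W ⟶ W} {K : Type} [Fintype K] {φ : K → ι}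
    {j : ∀ k, A (φ k) ⟶ W} {q : ∀ k, W ⟶ A (φ k)} (h1 : ∀ k, j k ≫ q k = 𝟙 _)
    (h2 : ∀ k l, k ≠ l → j k ≫ q l = 0) (h3 : ∑ k, q k ≫ j k = h) :
    (∀ k, j k ≫ h = j k) ∧ ∀ k, h ≫ q k = q k := by
  constructor
  · intro k
    rw [← h3, Preadditive.comp_sum, Finset.sum_eq_single k]
    · rw [← Category.assoc, h1, Category.id_comp]
    · intro l _ hl
      rw [← Category.assoc, h2 k l hl.symm, Limits.zero_comp]
    · intro hk
      exact absurd (Finset.mem_univ k) hk
  · intro k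
    rw [← h3, Preadditive.sum_comp, Finset.sum_eq_single k]
    · rw [Category.assoc, h1, Category.comp_id]
    · intro l _ hl
      rw [Category.assoc, h2 l k hl, Limits.comp_zero]
    · intro hk
      exact absurd (Finset.mem_univ k) hk

/-- **Retracts of coproducts of objects with local endomorphism rings**, if the retract has
countably many elements. The family `E` is jointly conservative for the objects in `Ex`. -/
theorem retract_iso {Ex : C → Prop}
    (hcons : ∀ {X Y : C} (f : X ⟶ Y), Ex X → Ex Y →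
      (∀ t, Function.Bijective (H.ev f : H.E t X →+ H.E t Y)) → IsIso f)
    (W : Cop H A) (hloc : ∀ i, LocEnd (A i))
    {X : C} (hX : Ex X) (hcount : Countable (Σ t, H.E t X))
    (s : X ⟶ W.W) (r : W.W ⟶ X) (hsr : s ≫ r = 𝟙 X) :
    ∃ (J : Type) (_ : Countable J) (φ : J → ι), ∀ V : Cop H (fun a => A (φ a)), V.Desc →
      Ex V.W → Nonempty (X ≅ V.W) := by
  classical
  obtain ⟨f', hf'⟩ := exists_surjective_nat (Option (Σ t, H.E t X))
  obtain ⟨f, hf⟩ : ∃ f : ℕ → Option (Σ t, H.E t W.W), ∀ t (x : H.E t X), ∃ k,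
      f k = some ⟨t, H.ev s x⟩ := by
    refine ⟨fun k => (f' k).map fun y => ⟨y.1, H.ev s y.2⟩, fun t x => ?_⟩
    obtain ⟨k, hk⟩ := hf' (some ⟨t, x⟩)
    exact ⟨k, by simp only [hk]; rfl⟩
  have he : (r ≫ s) ≫ (r ≫ s) = r ≫ s := by
    rw [Category.assoc, ← Category.assoc s r s, hsr, Category.id_comp]
  obtain ⟨E, hE0, hE1, hE2, hE3⟩ := chain W he hloc f
  choose K hK φ j q g1 g2 g3 using fun k => (hE2 k).1
  have hmono : ∀ a b, a ≤ b → E a ≫ E b = E a ∧ E b ≫ E a = E a := by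
    intro a b hab
    induction b, hab using Nat.le_induction with
    | base => exact ⟨(hE1 a).1, (hE1 a).1⟩
    | succ b _ ih =>
      constructor
      · calc E a ≫ E (b + 1) = (E a ≫ E b) ≫ E (b + 1) := by rw [ih.1]
          _ = E a := by rw [Category.assoc, (hE2 b).2.1, ih.1]
      · calc E (b + 1) ≫ E a = E (b + 1) ≫ (E b ≫ E a) := by rw [ih.2]
          _ = E a := by rw [← Category.assoc, (hE2 b).2.2, ih.2]
  have hort : ∀ k l, k ≠ l → (E (k + 1) - E k) ≫ (E (l + 1) - E l) = 0 := by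
    intro k l hkl
    simp only [Preadditive.sub_comp, Preadditive.comp_sub]
    rcases Nat.lt_or_gt_of_ne hkl with h | h
    · rw [(hmono (k + 1) (l + 1) (by omega)).1, (hmono (k + 1) l (by omega)).1,
        (hmono k (l + 1) (by omega)).1, (hmono k l (by omega)).1]
      abel
    · rw [(hmono (l + 1) (k + 1) (by omega)).2, (hmono l (k + 1) (by omega)).2,
        (hmono (l + 1) k (by omega)).2, (hmono l k (by omega)).2]
      abel
  have hjh : ∀ k a, j k a ≫ (E (k + 1) - E k) = j k a := fun k =>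
    (FS.split (g1 k) (g2 k) (g3 k)).1
  have hhq : ∀ k a, (E (k + 1) - E k) ≫ q k a = q k a := fun k =>
    (FS.split (g1 k) (g2 k) (g3 k)).2
  have hhe : ∀ k, (E (k + 1) - E k) ≫ (r ≫ s) = E (k + 1) - E k := by
    intro k
    rw [Preadditive.sub_comp, (hE1 k).2.1, (hE1 (k + 1)).2.1]
  have hje : ∀ k a, j k a ≫ r ≫ s = j k a := by
    intro k a
    calc j k a ≫ r ≫ s = (j k a ≫ (E (k + 1) - E k)) ≫ (r ≫ s) := by rw [hjh]
      _ = j k a := by rw [Category.assoc, hhe, hjh]
  refine ⟨Σ k, K k, ?_, fun a => φ a.1 a.2, fun V hVd hV => ?_⟩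
  · have : ∀ k, Countable (K k) := fun k => Finite.to_countable
    infer_instance
  -- orthogonality
  have hjq : ∀ a b : Σ k, K k, a ≠ b → j a.1 a.2 ≫ q b.1 b.2 = 0 := by
    rintro ⟨k, a⟩ ⟨l, b⟩ hne
    by_cases hkl : k = l
    · subst hkl
      exact g2 k a b (fun h => hne (by rw [h]))
    · change j k a ≫ q l b = 0
      rw [← hjh k a, ← hhq l b, Category.assoc, ← Category.assoc (E (k + 1) - E k), hort k l hkl,
        Limits.zero_comp, Limits.comp_zero]
  obtain ⟨Φ, hΦ⟩ := hVd (fun a => j a.1 a.2 ≫ r)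
  have hcoord : ∀ (t : T) (x : H.E t V.W) (b : Σ k, K k),
      H.ev (Φ ≫ s ≫ q b.1 b.2) x = H.ev (V.prj b) x := by
    intro t x b
    obtain ⟨F, hF⟩ := V.supp t x
    rw [hF, map_sum, map_sum]
    refine Finset.sum_congr rfl fun a _ => ?_
    rw [← H.ev_comp (V.inc a), ← H.ev_comp (V.inc a)]
    congr 2
    rw [← Category.assoc, hΦ a]
    by_cases hab : a = b
    · subst hab
      rw [V.inc_prj]
      calc (j a.1 a.2 ≫ r) ≫ s ≫ q a.1 a.2 = (j a.1 a.2 ≫ r ≫ s) ≫ q a.1 a.2 := by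
            simp only [Category.assoc]
        _ = 𝟙 _ := by rw [hje, g1]
    · rw [V.inc_prj_ne a b hab]
      calc (j a.1 a.2 ≫ r) ≫ s ≫ q b.1 b.2 = (j a.1 a.2 ≫ r ≫ s) ≫ q b.1 b.2 := by
            simp only [Category.assoc]
        _ = 0 := by rw [hje, hjq a b hab]
  have hiso : IsIso Φ := by
    refine hcons Φ hV hX fun t => ?_
    constructor
    · rw [injective_iff_map_eq_zero]
      intro x hx
      obtain ⟨F, hF⟩ := V.supp t x
      rw [hF]
      refine Finset.sum_eq_zero fun a _ => ?_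
      rw [← hcoord t x a, H.ev_comp, hx, map_zero, map_zero]
    · intro x
      obtain ⟨k, hk⟩ := hf t x
      have h1 := hE3 k t (H.ev s x) hk (by
        rw [← H.ev_comp, ← Category.assoc, hsr, Category.id_comp])
      have h2 : E (k + 1) = ∑ l ∈ Finset.range (k + 1), (E (l + 1) - E l) := by
        rw [Finset.sum_range_sub, hE0, sub_zero]
      have h3 : H.ev s x = ∑ l ∈ Finset.range (k + 1), H.ev (E (l + 1) - E l) (H.ev s x) := by
        rw [← HT.ev_sum, ← h2, h1]
      have h4 : ∀ l, ∃ z : H.E t V.W, H.ev Φ z = H.ev r (H.ev (E (l + 1) - E l) (H.ev s x)) := by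
        intro l
        refine ⟨∑ a, H.ev (V.inc ⟨l, a⟩) (H.ev (q l a) (H.ev s x)), ?_⟩
        rw [map_sum, ← g3 l, HT.ev_sum, map_sum]
        refine Finset.sum_congr rfl fun a _ => ?_
        rw [← H.ev_comp (V.inc _), hΦ, H.ev_comp (q l a)]
        exact H.ev_comp (j l a) r _
      choose z hz using h4
      refine ⟨∑ l ∈ Finset.range (k + 1), z l, ?_⟩
      rw [map_sum, Finset.sum_congr rfl (fun l _ => hz l), ← map_sum, ← h3, ← H.ev_comp, hsr,
        H.ev_id]
  exact ⟨(asIso Φ).symm⟩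

end Retract


section Unit

variable {H} {ι : Type} {A : ι → C}

theorem LocEnd.sum {M : C} (hM : LocEnd M) {κ : Type*} (F : Finset κ) (f : κ → (M ⟶ M))
    (h : IsIso (∑ i ∈ F, f i)) : ∃ i ∈ F, IsIso (f i) := by
  classical
  induction F using Finset.induction_on with
  | empty =>
    exfalso
    rw [Finset.sum_empty] at h
    obtain ⟨w, hw, -⟩ := h
    rw [Limits.zero_comp] at hw
    exact hM.1 hw.symm
  | insert a s ha ih =>
    rw [Finset.sum_insert ha] at h
    obtain ⟨w, hw1, hw2⟩ := h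
    rw [Preadditive.add_comp] at hw1
    have hcancel : ∀ g : M ⟶ M, IsIso (g ≫ w) → IsIso g := by
      intro g hg
      have hw : IsIso w := ⟨f a + ∑ i ∈ s, f i, hw2, by rw [Preadditive.add_comp]; exact hw1⟩
      exact IsIso.of_isIso_comp_right g w
    rcases hM.2 _ _ hw1 with h | h
    · exact ⟨a, Finset.mem_insert_self _ _, hcancel _ h⟩
    · obtain ⟨i, hi, hfi⟩ := ih (hcancel _ h)
      exact ⟨i, Finset.mem_insert_of_mem hi, hfi⟩

/-- A retract of an object with local endomorphism ring which is itself nonzero is isomorphic to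
it. -/
theorem LocEnd.iso_of_retract {M N : C} (hM : 𝟙 M ≠ 0) (hN : LocEnd N) (a : M ⟶ N) (b : N ⟶ M)
    (hab : a ≫ b = 𝟙 M) : Nonempty (M ≅ N) := by
  have h1 : b ≫ a + (𝟙 N - b ≫ a) = 𝟙 N := by abel
  have hid : (b ≫ a) ≫ (b ≫ a) = b ≫ a := by
    rw [Category.assoc, ← Category.assoc a b a, hab, Category.id_comp]
  rcases hN.2 _ _ h1 with h | h
  · have h2 : b ≫ a = 𝟙 N := by
      have h3 : (b ≫ a) ≫ (b ≫ a) = (b ≫ a) ≫ 𝟙 N := by rw [hid, Category.comp_id]
      exact (cancel_epi (b ≫ a)).1 h3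
    exact ⟨⟨a, b, hab, h2⟩⟩
  · exfalso
    have h3 : (𝟙 N - b ≫ a) ≫ (b ≫ a) = (𝟙 N - b ≫ a) ≫ 0 := by
      rw [Preadditive.sub_comp, hid, Category.id_comp, sub_self, Limits.comp_zero]
    have h4 : b ≫ a = 0 := (cancel_epi (𝟙 N - b ≫ a)).1 h3
    apply hM
    calc 𝟙 M = a ≫ (b ≫ a) ≫ b := by
          rw [Category.assoc, hab, Category.comp_id, hab]
      _ = 0 := by rw [h4, Limits.zero_comp, Limits.comp_zero]

/-- An object with local endomorphism ring which is a retract of `W` is isomorphic to one of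
the `A i`. -/
theorem unit_lemma {Ex : C → Prop}
    (hcons : ∀ {X Y : C} (f : X ⟶ Y), Ex X → Ex Y →
      (∀ t, Function.Bijective (H.ev f : H.E t X →+ H.E t Y)) → IsIso f)
    {M : C} (hEx : Ex M) (W : Cop H A) (hloc : ∀ i, LocEnd (A i)) (hM : LocEnd M) (a : M ⟶ W.W) (b : W.W ⟶ M)
    (hab : a ≫ b = 𝟙 M) : ∃ i, Nonempty (M ≅ A i) := by
  -- a nonzero element
  obtain ⟨t, x, hx⟩ : ∃ (t : T) (x : H.E t M), x ≠ 0 := by
    by_contra hcon
    push Not at hcon
    have h0 : IsIso (0 : M ⟶ M) := by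
      refine hcons _ hEx hEx fun t => ?_
      constructor
      · intro x y _
        rw [hcon t x, hcon t y]
      · intro x
        exact ⟨0, by rw [map_zero, hcon t x]⟩
    obtain ⟨w, hw, -⟩ := h0
    rw [Limits.zero_comp] at hw
    exact hM.1 hw.symm
  obtain ⟨F, hF⟩ := W.supp t (H.ev a x)
  have h1 : H.ev (∑ i ∈ F, a ≫ W.prj i ≫ W.inc i ≫ b) x = x := by
    rw [HT.ev_sum]
    have h2 : ∀ i ∈ F, H.ev (a ≫ W.prj i ≫ W.inc i ≫ b) x =
        H.ev b (H.ev (W.inc i) (H.ev (W.prj i) (H.ev a x))) := by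
      intro i _
      rw [H.ev_comp, H.ev_comp, H.ev_comp]
    rw [Finset.sum_congr rfl h2, ← map_sum, ← hF, ← H.ev_comp, hab, H.ev_id]
  have h3 : (∑ i ∈ F, a ≫ W.prj i ≫ W.inc i ≫ b) +
      (𝟙 M - ∑ i ∈ F, a ≫ W.prj i ≫ W.inc i ≫ b) = 𝟙 M := by abel
  rcases hM.2 _ _ h3 with h | h
  · obtain ⟨i, -, hi⟩ := hM.sum F _ h
    obtain ⟨w, hw1, hw2⟩ := hi
    refine ⟨i, LocEnd.iso_of_retract hM.1 (hloc i) (a ≫ W.prj i) (W.inc i ≫ b ≫ w) ?_⟩
    rw [← hw1]
    simp only [Category.assoc]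
  · exfalso
    obtain ⟨w, hw1, -⟩ := h
    apply hx
    have h4 : H.ev (𝟙 M - ∑ i ∈ F, a ≫ W.prj i ≫ W.inc i ≫ b) x = 0 := by
      rw [HT.ev_sub, h1, H.ev_id, sub_self]
    have h5 : H.ev w (H.ev (𝟙 M - ∑ i ∈ F, a ≫ W.prj i ≫ W.inc i ≫ b) x) = 0 := by
      rw [h4, map_zero]
    rw [← H.ev_comp, hw1, H.ev_id] at h5
    exact h5

end Unit

end Pool.Agent.Helper56.BSU
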