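import Mathlib

/-!
# Localisation of abelian groups at a submonoid of the integers, as a functor
-/

set_option autoImplicit false

open CategoryTheory

noncomputable section

namespace Pool.Agent.Helper56.BSU

variable (S : Submonoid ℤ)

/-- the localisation functor -/
def locF : AddCommGrpCat.{0} ⥤ AddCommGrpCat.{0} where
  obj M := AddCommGrpCat.of (LocalizedModule S M)
  map {M N} f := AddCommGrpCat.ofHom
    (LocalizedModule.map S (f.hom : M →+ N).toIntLinearMap).toAddMonoidHom
  map_id M := by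
    ext x
    induction x using LocalizedModule.induction_on with
    | _ m s =>
      change LocalizedModule.map S _ (LocalizedModule.mk m s) = LocalizedModule.mk m s
      rw [LocalizedModule.map_mk]
      rfl
  map_comp f g := by
    ext x
    induction x using LocalizedModule.induction_on with
    | _ m s =>
      change LocalizedModule.map S _ (LocalizedModule.mk m s) =
        LocalizedModule.map S _ (LocalizedModule.map S _ (LocalizedModule.mk m s))
      rw [LocalizedModule.map_mk, LocalizedModule.map_mk, LocalizedModule.map_mk]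
      rfl

/-- fractions -/
def fr {M : AddCommGrpCat.{0}} (m : M) (s : S) : (locF S).obj M := LocalizedModule.mk m s

variable {S}

theorem fr_ind {M : AddCommGrpCat.{0}} (x : (locF S).obj M) : ∃ m s, x = fr S m s := by
  induction x using LocalizedModule.induction_on with
  | _ m s => exact ⟨m, s, rfl⟩

theorem fr_eq {M : AddCommGrpCat.{0}} {m m' : M} {s s' : S} :
    fr S m s = fr S m' s' ↔ ∃ u : S, (u : ℤ) • (s' : ℤ) • m = (u : ℤ) • (s : ℤ) • m' :=
  LocalizedModule.mk_eq

theorem fr_zero {M : AddCommGrpCat.{0}} {s : S} : fr S (0 : M) s = 0 :=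
  LocalizedModule.zero_mk s

theorem fr_eq_zero {M : AddCommGrpCat.{0}} {m : M} {s : S} :
    fr S m s = 0 ↔ ∃ u : S, (u : ℤ) • m = 0 := by
  rw [← fr_zero (s := 1), fr_eq]
  constructor
  · rintro ⟨u, hu⟩
    refine ⟨u, ?_⟩
    rw [OneMemClass.coe_one, one_smul, smul_zero, smul_zero] at hu
    exact hu
  · rintro ⟨u, hu⟩
    refine ⟨u, ?_⟩
    rw [OneMemClass.coe_one, one_smul, smul_zero, smul_zero]
    exact hu

theorem fr_map {M N : AddCommGrpCat.{0}} (f : M ⟶ N) (m : M) (s : S) :
    (locF S).map f (fr S m s) = fr S (f m) s := by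
  change LocalizedModule.map S _ (LocalizedModule.mk m s) = _
  rw [LocalizedModule.map_mk]
  rfl

theorem fr_cancel {M : AddCommGrpCat.{0}} (m : M) (s t : S) :
    fr S ((t : ℤ) • m) (t * s) = fr S m s :=
  LocalizedModule.mk_cancel_common_left t s m

theorem fr_add {M : AddCommGrpCat.{0}} (m m' : M) (s : S) :
    fr S m s + fr S m' s = fr S (m + m') s := by
  change LocalizedModule.mk m s + LocalizedModule.mk m' s = LocalizedModule.mk (m + m') s
  rw [LocalizedModule.mk_add_mk, ← smul_add, Submonoid.smul_def]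
  exact fr_cancel (m + m') s s

theorem fr_sub {M : AddCommGrpCat.{0}} (m m' : M) (s : S) :
    fr S m s - fr S m' s = fr S (m - m') s := by
  rw [sub_eq_iff_eq_add, fr_add, sub_add_cancel]

/-- two fractions have a common denominator -/
theorem fr_common {M N : AddCommGrpCat.{0}} (x : (locF S).obj M) (y : (locF S).obj N) :
    ∃ m n s, x = fr S m s ∧ y = fr S n s := by
  obtain ⟨m, s, rfl⟩ := fr_ind x
  obtain ⟨n, t, rfl⟩ := fr_ind y
  refine ⟨(t : ℤ) • m, (s : ℤ) • n, t * s, (fr_cancel m s t).symm, ?_⟩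
  rw [mul_comm t s]
  exact (fr_cancel n t s).symm

theorem fr_eq' {M : AddCommGrpCat.{0}} {m m' : M} {s : S} (h : fr S m s = fr S m' s) :
    ∃ u : S, (u : ℤ) • m = (u : ℤ) • m' := by
  have h1 : fr S (m - m') s = 0 := by rw [← fr_sub, h, sub_self]
  obtain ⟨u, hu⟩ := fr_eq_zero.1 h1
  exact ⟨u, by rw [smul_sub, sub_eq_zero] at hu; exact hu⟩

instance : (locF S).Additive where
  map_add {M N f g} := by
    ext x
    obtain ⟨m, s, rfl⟩ := fr_ind x
    change (locF S).map (f + g) (fr S m s) = (locF S).map f (fr S m s) + (locF S).map g (fr S m s)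
    rw [fr_map, fr_map, fr_map, fr_add]
    rfl

variable (S)

/-- the unit -/
def locη : 𝟭 AddCommGrpCat.{0} ⟶ locF S where
  app M := AddCommGrpCat.ofHom (LocalizedModule.mkLinearMap S M).toAddMonoidHom
  naturality M N f := by
    ext m
    change fr S (f m) 1 = (locF S).map f (fr S m 1)
    rw [fr_map]

theorem locη_app {M : AddCommGrpCat.{0}} (m : M) : (locη S).app M m = fr S m 1 := rfl

theorem fr_zsmul {M : AddCommGrpCat.{0}} (k : ℤ) (m : M) (s : S) :
    k • fr S m s = fr S (k • m) s := by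
  let φ : M →+ (locF S).obj M :=
    { toFun := fun m => fr S m s
      map_zero' := fr_zero
      map_add' := fun m m' => (fr_add m m' s).symm }
  exact (map_zsmul φ k m).symm

theorem locF_bij (M : AddCommGrpCat.{0}) (s : ℤ) (hs : s ∈ S) :
    Function.Bijective fun x : (locF S).obj M => s • x := by
  constructor
  · intro x y hxy
    obtain ⟨m, n, t, rfl, rfl⟩ := fr_common x y
    have h1 : fr S (s • m) t = fr S (s • n) t := by
      rw [← fr_zsmul, ← fr_zsmul]
      exact hxy
    obtain ⟨u, hu⟩ := fr_eq' h1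
    rw [fr_eq]
    refine ⟨u * ⟨s, hs⟩, ?_⟩
    have h2 : ((u * ⟨s, hs⟩ : S) : ℤ) • m = ((u * ⟨s, hs⟩ : S) : ℤ) • n := by
      rw [Submonoid.coe_mul, mul_smul, mul_smul]
      exact hu
    rw [smul_comm, smul_comm ((u * ⟨s, hs⟩ : S) : ℤ) (t : ℤ) n, h2]
  · intro y
    obtain ⟨m, t, rfl⟩ := fr_ind y
    refine ⟨fr S m (⟨s, hs⟩ * t), ?_⟩
    change s • fr S m (⟨s, hs⟩ * t) = _
    rw [fr_zsmul]
    exact fr_cancel m t ⟨s, hs⟩

theorem locη_isLoc (M : AddCommGrpCat.{0}) :
    IsLocalizedModule S ((locη S).app M).hom.toIntLinearMap where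
  map_units s := by
    rw [Module.End.isUnit_iff]
    exact locF_bij S M s s.2
  surj y := by
    obtain ⟨m, s, rfl⟩ := fr_ind y
    refine ⟨(m, s), ?_⟩
    change (s : ℤ) • fr S m s = fr S m 1
    rw [fr_zsmul]
    have := fr_cancel m 1 s
    rwa [mul_one] at this
  exists_of_eq {m n} h := by
    have h1 : fr S m 1 = fr S n 1 := h
    exact fr_eq' h1

variable {S}

/-- A localisation becomes invertible after localisation. -/
theorem locF_map_bij {M N : AddCommGrpCat.{0}} {S' : Submonoid ℤ} (hS : S' ≤ S) (f : M ⟶ N)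
    (hf : IsLocalizedModule S' f.hom.toIntLinearMap) : IsIso ((locF S).map f) := by
  rw [ConcreteCategory.isIso_iff_bijective]
  constructor
  · rw [injective_iff_map_eq_zero]
    intro x hx
    obtain ⟨m, s, rfl⟩ := fr_ind x
    rw [fr_map, fr_eq_zero] at hx
    obtain ⟨u, hu⟩ := hx
    have h1 : f.hom.toIntLinearMap ((u : ℤ) • m) = f.hom.toIntLinearMap 0 := by
      rw [map_zero, map_smul]
      exact hu
    obtain ⟨c, hc⟩ := (IsLocalizedModule.eq_iff_exists S' f.hom.toIntLinearMap).1 h1
    rw [smul_zero] at hc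
    rw [fr_eq_zero]
    refine ⟨⟨c, hS c.2⟩ * u, ?_⟩
    rw [Submonoid.coe_mul, mul_smul]
    exact hc
  · intro y
    obtain ⟨n, s, rfl⟩ := fr_ind y
    obtain ⟨⟨m, c⟩, hm⟩ := IsLocalizedModule.surj S' f.hom.toIntLinearMap n
    refine ⟨fr S m (⟨c, hS c.2⟩ * s), ?_⟩
    rw [fr_map]
    have h1 : f m = ((⟨c, hS c.2⟩ : S) : ℤ) • n := hm.symm
    rw [h1, fr_cancel]

/-- If `S` acts bijectively the unit is an isomorphism. -/
theorem locη_iso (M : AddCommGrpCat.{0}) (h : ∀ s ∈ S, Function.Bijective fun x : M => s • x) :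
    IsIso ((locη S).app M) := by
  rw [ConcreteCategory.isIso_iff_bijective]
  constructor
  · rw [injective_iff_map_eq_zero]
    intro x hx
    rw [locη_app, fr_eq_zero] at hx
    obtain ⟨u, hu⟩ := hx
    exact (h u u.2).1 (by simpa using hu)
  · intro y
    obtain ⟨m, s, rfl⟩ := fr_ind y
    obtain ⟨n, hn⟩ := (h s s.2).2 m
    refine ⟨n, ?_⟩
    rw [locη_app, ← hn]
    have := fr_cancel n 1 s
    rw [mul_one] at this
    exact this.symm

/-- The elements of `S` act bijectively on a localisation. -/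
theorem bij_of_isLoc {M N : AddCommGrpCat.{0}} (f : M ⟶ N)
    (hf : IsLocalizedModule S f.hom.toIntLinearMap) : ∀ s ∈ S,
      Function.Bijective fun x : N => s • x := by
  intro s hs
  have h1 := hf.map_units ⟨s, hs⟩
  rw [Module.End.isUnit_iff] at h1
  exact h1

theorem locF_countable (M : AddCommGrpCat.{0}) [Countable M] : Countable ((locF S).obj M) := by
  have h : Function.Surjective (fun x : M × S => (fr S x.1 x.2 : (locF S).obj M)) := by
    intro y
    obtain ⟨m, s, rfl⟩ := fr_ind y
    exact ⟨(m, s), rfl⟩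
  exact h.countable

end Pool.Agent.Helper56.BSU
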