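import Pool.Agent.Helper56.BSU.TopX
import Pool.Agent.Helper56.BSU.LocGrp
import Pool.Agent.Helper56.BSU.Krull

/-!
# Localisation of graded functors, and sums of graded functors
-/

set_option autoImplicit false

open CategoryTheory Topology Opposite

noncomputable section

namespace Pool.Agent.Helper1.Stab

open Pool.Agent.Helper56.BSU

/-! ## Localisation -/

section Loc

variable (S : Submonoid ℤ)

/-- the localisation of a graded functor at a submonoid of the integers -/
def GF.loc : GF ⥤ GF where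
  obj H := ⟨fun b => H.h b ⋙ locF S, fun b => Functor.isoWhiskerRight (H.σ b) (locF S)⟩
  map {G H} f := ⟨fun b => Functor.whiskerRight (f.app b) (locF S), fun b => by
    apply NatTrans.ext
    funext K
    have h := congrArg (fun t => (locF S).map (NatTrans.app t K)) (f.comm b)
    simp only [NatTrans.comp_app, Functor.map_comp] at h
    exact h⟩
  map_id H := GF.hom_ext fun b => by
    apply NatTrans.ext
    funext K
    exact (locF S).map_id _
  map_comp f g := GF.hom_ext fun b => by
    apply NatTrans.ext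
    funext K
    exact (locF S).map_comp _ _

/-- the unit of the localisation -/
def GF.locη : 𝟭 GF ⟶ GF.loc S where
  app H := GF.Hom.mk' (G := H) (H := (GF.loc S).obj H)
    (fun b =>
      { app := fun K => (Pool.Agent.Helper56.BSU.locη S).app ((H.h b).obj K)
        naturality := fun K L f =>
          (Pool.Agent.Helper56.BSU.locη S).naturality ((H.h b).map f) })
    fun b K => (Pool.Agent.Helper56.BSU.locη S).naturality ((H.σ b).hom.app K)
  naturality G H f := GF.hom_ext fun b => by
    apply NatTrans.ext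
    funext K
    exact (Pool.Agent.Helper56.BSU.locη S).naturality ((f.app b).app K)

instance : (GF.loc S).Additive where
  map_add {G H f g} := GF.hom_ext fun b => by
    apply NatTrans.ext
    funext K
    exact (locF S).map_add

variable {S}

theorem GF.res_loc (H : GF) (b : ℕ) {K L : LC} (hK : IsTest K) (hL : IsTest L)
    (f : PMap K L.plus) (m : (H.h b).obj (op ⟨L, hL⟩)) (s : S) :
    Test.res (((GF.loc S).obj H).h b) hK hL f (fr S m s) = fr S (Test.res (H.h b) hK hL f m) s :=
  fr_map _ _ _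

theorem Test.res_zsmul (H : Testᵒᵖ ⥤ AddCommGrpCat.{0}) {K L : LC} (hK : IsTest K) (hL : IsTest L)
    (f : PMap K L.plus) (k : ℤ) (m : H.obj (op ⟨L, hL⟩)) :
    Test.res H hK hL f (k • m) = k • Test.res H hK hL f m :=
  map_zsmul (H.map (Quiver.Hom.op (X := (⟨K, hK⟩ : Test)) (Y := (⟨L, hL⟩ : Test))
    (ObjectProperty.homMk f.cls))).hom k m

theorem GF.res_loc_eq_zero (H : GF) (b : ℕ) {K L : LC} (hK : IsTest K) (hL : IsTest L)
    (f : PMap K L.plus) (m : (H.h b).obj (op ⟨L, hL⟩)) (s : S) :
    Test.res (((GF.loc S).obj H).h b) hK hL f (fr S m s) = 0 ↔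
      ∃ u : S, (u : ℤ) • Test.res (H.h b) hK hL f m = 0 := by
  have h := GF.res_loc H b hK hL f m s
  constructor
  · intro h0
    exact fr_eq_zero.1 (h.symm.trans h0)
  · intro h0
    exact h.trans (fr_eq_zero.2 h0)

theorem GF.Exact.loc {H : GF} (h : H.Exact) : ((GF.loc S).obj H).Exact where
  mv1 b K u hK hA hB hC x h1 h2 := by
    obtain ⟨m, s, rfl⟩ := fr_ind (S := S) (M := (H.h b).obj (op ⟨K, hK⟩)) x
    obtain ⟨c, hc⟩ := (GF.res_loc_eq_zero H b hA hK (MV.iA u) m s).1 h1
    obtain ⟨c', hc'⟩ := (GF.res_loc_eq_zero H b hB hK (MV.iB u) m s).1 h2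
    obtain ⟨y, hy⟩ := h.mv1 b K u hK hA hB hC ((c' : ℤ) • (c : ℤ) • m)
      (by rw [Test.res_zsmul, Test.res_zsmul, hc, smul_zero])
      (by rw [smul_comm, Test.res_zsmul, Test.res_zsmul, hc', smul_zero])
    refine ⟨fr S y (c' * (c * s)), ?_⟩
    refine Eq.symm ((GF.res_loc H b hK hC.prodR (MV.delta u) y _).trans ?_)
    rw [← hy, fr_cancel, fr_cancel]
  mv2 b K u hK hA hB hC x y h1 := by
    obtain ⟨m, n, s, rfl, rfl⟩ := fr_common (S := S) (M := (H.h b).obj (op ⟨_, hA⟩))
      (N := (H.h b).obj (op ⟨_, hB⟩)) x y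
    have h1' := ((GF.res_loc H b hC hA (MV.iCA u) m s).symm.trans h1).trans
      (GF.res_loc H b hC hB (MV.iCB u) n s)
    obtain ⟨c, hc⟩ := fr_eq' h1'
    obtain ⟨z, hz1, hz2⟩ := h.mv2 b K u hK hA hB hC ((c : ℤ) • m) ((c : ℤ) • n)
      (by rw [Test.res_zsmul, Test.res_zsmul]; exact hc)
    refine ⟨fr S z (c * s), ?_, ?_⟩
    · refine (GF.res_loc H b hA hK (MV.iA u) z _).trans ?_
      rw [hz1, fr_cancel]
    · refine (GF.res_loc H b hB hK (MV.iB u) z _).trans ?_
      rw [hz2, fr_cancel]
  mv3 b K u hK hA hB hC y h1 := by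
    obtain ⟨m, s, rfl⟩ := fr_ind (S := S) (M := (H.h b).obj (op ⟨_, hC.prodR⟩)) y
    obtain ⟨c, hc⟩ := (GF.res_loc_eq_zero H b hK hC.prodR (MV.delta u) m s).1 h1
    obtain ⟨v, w, hvw⟩ := h.mv3 b K u hK hA hB hC ((c : ℤ) • m)
      (by rw [Test.res_zsmul]; exact hc)
    refine ⟨fr S v (c * s), fr S w (c * s), ?_⟩
    have h2 : fr S m s = fr S (Test.res (H.h b) hC.prodR hA.prodR (PMap.ltens LC.R (MV.iCA u)) v)
        (c * s) - fr S (Test.res (H.h b) hC.prodR hB.prodR (PMap.ltens LC.R (MV.iCB u)) w)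
          (c * s) := by
      rw [fr_sub, ← hvw, fr_cancel]
    refine h2.trans ?_
    exact congrArg₂ (fun a b => a - b)
      (GF.res_loc H b hC.prodR hA.prodR (PMap.ltens LC.R (MV.iCA u)) v (c * s)).symm
      (GF.res_loc H b hC.prodR hB.prodR (PMap.ltens LC.R (MV.iCB u)) w (c * s)).symm

/-- A localisation at a smaller submonoid becomes invertible. -/
theorem GF.loc_map_iso {G H : GF} {S' : Submonoid ℤ} (hS : S' ≤ S) (q : G ⟶ H)
    (hq : GF.IsLoc S' q) : IsIso ((GF.loc S).map q) := by
  refine GF.isIso_of_app _ fun b => ?_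
  have : ∀ K, IsIso ((((GF.loc S).map q).app b).app K) := fun K =>
    locF_map_bij hS ((q.app b).app K) (hq b K.unop)
  exact NatIso.isIso_of_isIso_app _

/-- The same for localisations on the values at spheres, if the functors are exact. -/
theorem GF.loc_map_iso' {G H : GF} (hG : G.Exact) (hH : H.Exact) (q : G ⟶ H)
    (hq : ∀ b a, IsLocalizedModule S ((GF.ev b (Test.R a)).map q).hom.toIntLinearMap) :
    IsIso ((GF.loc S).map q) := by
  refine GF.isIso_of_spheres hG.loc hH.loc _ fun b a => ?_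
  exact locF_map_bij le_rfl ((GF.ev b (Test.R a)).map q) (hq b a)

/-- the unit is an isomorphism if the integers in `S` act invertibly -/
theorem GF.locη_iso {H : GF} (h : ∀ s ∈ S, IsIso (s • 𝟙 H)) : IsIso ((GF.locη S).app H) := by
  refine GF.isIso_of_app _ fun b => ?_
  have : ∀ K, IsIso ((((GF.locη S).app H).app b).app K) := fun K => by
    refine Pool.Agent.Helper56.BSU.locη_iso ((H.h b).obj K) fun s hs => ?_
    have h1 := h s hs
    have h2 : IsIso ((GF.ev b K.unop).map (s • 𝟙 H)) := inferInstance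
    rw [Functor.map_zsmul, CategoryTheory.Functor.map_id] at h2
    rw [ConcreteCategory.isIso_iff_bijective] at h2
    exact h2
  exact NatIso.isIso_of_isIso_app _

end Loc

end Pool.Agent.Helper1.Stab
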