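import Pool.Agent.Helper56.BSU.TopX
import Pool.Agent.Helper56.BSU.GFLoc

/-!
# Morphisms of spectra and morphisms of graded functors
-/

set_option autoImplicit false

open CategoryTheory Topology Opposite

noncomputable section

namespace Pool.Agent.Helper1.Stab

open Pool.Agent.Helper56.BSU

/-! ## The functor `hS` -/

/-- Natural transformations on prespectra are natural for morphisms of spectra. -/
theorem nat_ext {E : Type*} [Category E] (A B : SHC ⥤ E)
    (γ : stableEquiv.Q ⋙ A ⟶ stableEquiv.Q ⋙ B) {X Y : Prespectrum} (Ψ : spec X ⟶ spec Y) :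
    A.map Ψ ≫ γ.app Y = γ.app X ≫ B.map Ψ := by
  let _ : Localization.Lifting stableEquiv.Q stableEquiv (stableEquiv.Q ⋙ A) A := ⟨Iso.refl _⟩
  let _ : Localization.Lifting stableEquiv.Q stableEquiv (stableEquiv.Q ⋙ B) B := ⟨Iso.refl _⟩
  have h : ∀ X : Prespectrum, (Localization.liftNatTrans stableEquiv.Q stableEquiv
      (stableEquiv.Q ⋙ A) (stableEquiv.Q ⋙ B) A B γ).app (stableEquiv.Q.obj X) = γ.app X := by
    intro X
    rw [Localization.liftNatTrans_app]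
    change 𝟙 _ ≫ γ.app X ≫ 𝟙 _ = _
    rw [Category.id_comp, Category.comp_id]
  have h1 := (Localization.liftNatTrans stableEquiv.Q stableEquiv
      (stableEquiv.Q ⋙ A) (stableEquiv.Q ⋙ B) A B γ).naturality Ψ
  rw [h, h] at h1
  exact h1

/-- the comparison -/
def facI : stableEquiv.Q ⋙ hS ≅ hP :=
  Localization.fac hP (fun _ _ φ h => (stableEquiv_iff φ).1 h) stableEquiv.Q

/-- the morphism of graded functors of a morphism of spectra -/
def hm {X Y : Prespectrum} (Φ : spec X ⟶ spec Y) : hP.obj X ⟶ hP.obj Y :=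
  facI.inv.app X ≫ hS.map Φ ≫ facI.hom.app Y

theorem hm_Q {X Y : Prespectrum} (f : X ⟶ Y) : hm (stableEquiv.Q.map f) = hP.map f := by
  unfold hm
  have h := facI.hom.naturality f
  have h2 : hS.map (stableEquiv.Q.map f) ≫ facI.hom.app Y = facI.hom.app X ≫ hP.map f := h
  rw [h2, Iso.inv_hom_id_app_assoc]

theorem hm_comp {X Y Z : Prespectrum} (Φ : spec X ⟶ spec Y) (Ψ : spec Y ⟶ spec Z) :
    hm (Φ ≫ Ψ) = hm Φ ≫ hm Ψ := by
  unfold hm
  rw [Functor.map_comp]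
  simp only [Category.assoc, Iso.hom_inv_id_app_assoc]

theorem hm_id (X : Prespectrum) : hm (𝟙 (spec X)) = 𝟙 _ := by
  unfold hm
  rw [CategoryTheory.Functor.map_id]
  exact (congrArg (fun t => facI.inv.app X ≫ t) (Category.id_comp (facI.hom.app X))).trans
    (Iso.inv_hom_id_app facI X)

theorem isIso_hm {X Y : Prespectrum} (Φ : spec X ⟶ spec Y) [IsIso Φ] : IsIso (hm Φ) :=
  ⟨hm (inv Φ), by rw [← hm_comp, IsIso.hom_inv_id, hm_id], by
    rw [← hm_comp, IsIso.inv_hom_id, hm_id]⟩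

theorem hm_inv_comp {X Y Z : Prespectrum} (Φ : spec X ⟶ spec Y) [IsIso Φ]
    (ψ : hP.obj X ⟶ hP.obj Z) (ψ' : hP.obj Y ⟶ hP.obj Z) (h : ψ = hm Φ ≫ ψ') :
    hm (inv Φ) ≫ ψ = ψ' := by
  rw [h, ← Category.assoc, ← hm_comp, IsIso.inv_hom_id, hm_id, Category.id_comp]

theorem isIso_Q {X Y : Prespectrum} {f : X ⟶ Y} (h : stableEquiv f) : IsIso (stableEquiv.Q.map f) :=
  Localization.inverts stableEquiv.Q stableEquiv f h

/-! ## Stable homotopy groups -/

theorem piSHC_arrow_aux {a b a' b' : ℕ} (e : piS a b ≅ hP ⋙ GF.ev b' (Test.R a')) :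
    ∃ t : ∀ X : Prespectrum, (piSHC a b).obj (spec X) ≅ (GF.ev b' (Test.R a')).obj (hP.obj X),
      ∀ (X Y : Prespectrum) (Φ : spec X ⟶ spec Y),
        (piSHC a b).map Φ ≫ (t Y).hom = (t X).hom ≫ (GF.ev b' (Test.R a')).map (hm Φ) := by
  let f1 : stableEquiv.Q ⋙ piSHC a b ≅ piS a b :=
    Localization.fac (piS a b) (piS_inverts a b) stableEquiv.Q
  let γ : stableEquiv.Q ⋙ piSHC a b ≅ stableEquiv.Q ⋙ (hS ⋙ GF.ev b' (Test.R a')) :=
    f1 ≪≫ e ≪≫ Functor.isoWhiskerRight facI.symm (GF.ev b' (Test.R a'))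
  refine ⟨fun X => γ.app X ≪≫ (GF.ev b' (Test.R a')).mapIso (facI.app X), fun X Y Φ => ?_⟩
  have h := nat_ext (piSHC a b) (hS ⋙ GF.ev b' (Test.R a')) γ.hom Φ
  change (piSHC a b).map Φ ≫ γ.hom.app Y ≫ (GF.ev b' (Test.R a')).map (facI.hom.app Y) =
    (γ.hom.app X ≫ (GF.ev b' (Test.R a')).map (facI.hom.app X)) ≫
      (GF.ev b' (Test.R a')).map (hm Φ)
  rw [← Category.assoc, h, Category.assoc, Category.assoc]
  congr 1
  unfold hm
  rw [Functor.comp_map, ← Functor.map_comp, ← Functor.map_comp]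
  congr 1
  simp only [Iso.hom_inv_id_app_assoc]

theorem piSHC_arrow (a b : ℕ) : ∃ (a' b' : ℕ)
    (t : ∀ X : Prespectrum, (piSHC a b).obj (spec X) ≅ (GF.ev b' (Test.R a')).obj (hP.obj X)),
      ∀ (X Y : Prespectrum) (Φ : spec X ⟶ spec Y),
        (piSHC a b).map Φ ≫ (t Y).hom = (t X).hom ≫ (GF.ev b' (Test.R a')).map (hm Φ) := by
  obtain ⟨a', b', ⟨e⟩⟩ := piS_iso a b
  exact ⟨a', b', piSHC_arrow_aux e⟩

theorem piSHC_arrow' (a b : ℕ) : ∃
    (t : ∀ X : Prespectrum, (piSHC a (2 * b)).obj (spec X) ≅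
      (GF.ev b (Test.R a)).obj (hP.obj X)),
      ∀ (X Y : Prespectrum) (Φ : spec X ⟶ spec Y),
        (piSHC a (2 * b)).map Φ ≫ (t Y).hom = (t X).hom ≫ (GF.ev b (Test.R a)).map (hm Φ) := by
  obtain ⟨e⟩ := piS_iso' a b
  exact piSHC_arrow_aux e

/-- Localisations can be transported along isomorphisms. -/
theorem isLoc_congr {S : Submonoid ℤ} {M N M' N' : AddCommGrpCat.{0}} (e₁ : M ≅ M') (e₂ : N ≅ N')
    {f : M ⟶ N} {f' : M' ⟶ N'} (h : f ≫ e₂.hom = e₁.hom ≫ f')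
    (hf : IsLocalizedModule S f.hom.toIntLinearMap) :
    IsLocalizedModule S f'.hom.toIntLinearMap := by
  have h1 : f' = e₁.inv ≫ f ≫ e₂.hom := by rw [h, Iso.inv_hom_id_assoc]
  let E₁ : M ≃ₗ[ℤ] M' := e₁.addCommGroupIsoToAddEquiv.toIntLinearEquiv
  let E₂ : N ≃ₗ[ℤ] N' := e₂.addCommGroupIsoToAddEquiv.toIntLinearEquiv
  have h2 : f'.hom.toIntLinearMap =
      (E₂.toLinearMap ∘ₗ f.hom.toIntLinearMap) ∘ₗ E₁.symm.toLinearMap := by
    subst h1
    rfl
  rw [h2]
  have h3 : IsLocalizedModule S (E₂.toLinearMap ∘ₗ f.hom.toIntLinearMap) :=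
    IsLocalizedModule.of_linearEquiv S f.hom.toIntLinearMap E₂
  exact IsLocalizedModule.of_linearEquiv_right S _ E₁.symm

/-- a localisation on all values at spheres -/
def SphLoc (S : Submonoid ℤ) {G H : GF} (q : G ⟶ H) : Prop :=
  ∀ b a, IsLocalizedModule S ((GF.ev b (Test.R a)).map q).hom.toIntLinearMap

theorem isPLoc_iff {p : ℕ} {X Y : Prespectrum} (q : spec X ⟶ spec Y) :
    IsPLoc p q ↔ SphLoc (primeTo p) (hm q) := by
  constructor
  · intro h b a
    obtain ⟨t, ht⟩ := piSHC_arrow' a b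
    exact isLoc_congr (t X) (t Y) (ht X Y q) (h a (2 * b))
  · intro h a b
    obtain ⟨a', b', t, ht⟩ := piSHC_arrow a b
    refine isLoc_congr (t X).symm (t Y).symm ?_ (h b' a')
    rw [Iso.symm_hom, Iso.symm_hom, Iso.eq_inv_comp, ← Category.assoc, ← ht, Category.assoc,
      Iso.hom_inv_id, Category.comp_id]

/-! ## Realisation -/

/-- Every morphism of graded functors from `hP X` comes from a morphism of spectra. -/
def Realises (X : Prespectrum) : Prop :=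
  ∀ (Y : Prespectrum) (φ : hP.obj X ⟶ hP.obj Y), ∃ Φ : spec X ⟶ spec Y, hm Φ = φ

/-- Objects with compact levels have this property. -/
theorem realises_compact {G : Prespectrum} (hG : IsCompactLevel G) (Y : Prespectrum)
    (φ : hP.obj G ⟶ hP.obj Y) :
    ∃ Φ : spec G ⟶ spec Y, hm Φ = φ ∧ (IsIso φ → IsIso Φ) := by
  obtain ⟨T, w, f, hw, -, -, hf⟩ := realise_free hG φ
  have iw : IsIso (stableEquiv.Q.map w) := isIso_Q hw
  have iy : IsIso (stableEquiv.Q.map Y.toFree) := isIso_Q (stableEquiv_toFree Y)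
  have jw : IsIso (hP.map w) := (stableEquiv_iff w).1 hw
  have jy : IsIso (hP.map Y.toFree) := (stableEquiv_iff _).1 (stableEquiv_toFree Y)
  refine ⟨inv (stableEquiv.Q.map w) ≫ stableEquiv.Q.map f ≫ inv (stableEquiv.Q.map Y.toFree),
    ?_, fun h => ?_⟩
  · rw [hm_comp]
    refine hm_inv_comp (stableEquiv.Q.map w) _ φ ?_
    rw [hm_comp, hm_Q, hm_Q, hf]
    have h1 : hP.map Y.toFree ≫ hm (inv (stableEquiv.Q.map Y.toFree)) = 𝟙 _ := by
      rw [← hm_Q, ← hm_comp, IsIso.hom_inv_id, hm_id]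
    rw [Category.assoc, Category.assoc, h1, Category.comp_id]
  · have h2 : IsIso (hP.map f) := by
      rw [hf]
      infer_instance
    have h3 : IsIso (stableEquiv.Q.map f) := isIso_Q ((stableEquiv_iff f).2 h2)
    infer_instance

theorem realises_iso {G W : Prespectrum} (hG : IsCompactLevel G) (e : hP.obj G ≅ hP.obj W) :
    Realises W := by
  obtain ⟨E, hE, hE'⟩ := realises_compact hG W e.hom
  have := hE' inferInstance
  intro Y φ
  obtain ⟨Ψ, hΨ, -⟩ := realises_compact hG Y (e.hom ≫ φ)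
  refine ⟨inv E ≫ Ψ, ?_⟩
  rw [hm_comp]
  exact hm_inv_comp E _ _ (by rw [hΨ, hE])

theorem realises_retract {X W : Prespectrum} (hW : Realises W) (I : spec X ⟶ spec W)
    (r : hP.obj W ⟶ hP.obj X) (h : hm I ≫ r = 𝟙 _) : Realises X := by
  intro Y φ
  obtain ⟨Ψ, hΨ⟩ := hW Y (r ≫ φ)
  exact ⟨I ≫ Ψ, by rw [hm_comp, hΨ, ← Category.assoc, h, Category.id_comp]⟩

/-! ## Functors -/

section Fun

variable (F : Prespectrum ⥤ Prespectrum) (hF : ∀ {X Y : Prespectrum} (f : X ⟶ Y),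
  stableEquiv f → stableEquiv (F.map f))

/-- the functor on spectra -/
def liftS : SHC ⥤ SHC :=
  Localization.lift (F ⋙ stableEquiv.Q) (fun _ _ f hf => isIso_Q (hF f hf)) stableEquiv.Q

/-- the comparison -/
def liftI : stableEquiv.Q ⋙ liftS F hF ≅ F ⋙ stableEquiv.Q :=
  Localization.fac (F ⋙ stableEquiv.Q) (fun _ _ f hf => isIso_Q (hF f hf)) stableEquiv.Q

/-- the functor on morphisms of spectra -/
def fm {X Y : Prespectrum} (Φ : spec X ⟶ spec Y) : spec (F.obj X) ⟶ spec (F.obj Y) :=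
  (liftI F hF).inv.app X ≫ (liftS F hF).map Φ ≫ (liftI F hF).hom.app Y

theorem hm_fm {Θ : GF ⥤ GF} (α : F ⋙ hP ≅ hP ⋙ Θ) {X Y : Prespectrum} (Φ : spec X ⟶ spec Y) :
    hm (fm F hF Φ) ≫ α.hom.app Y = α.hom.app X ≫ Θ.map (hm Φ) := by
  let γ : stableEquiv.Q ⋙ (liftS F hF ⋙ hS) ≅ stableEquiv.Q ⋙ (hS ⋙ Θ) :=
    Functor.isoWhiskerRight (liftI F hF) hS ≪≫ Functor.isoWhiskerLeft F facI ≪≫ α ≪≫
      Functor.isoWhiskerRight facI.symm Θ
  have h := nat_ext (liftS F hF ⋙ hS) (hS ⋙ Θ) γ.hom Φ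
  have hγ : ∀ X, γ.hom.app X = hS.map ((liftI F hF).hom.app X) ≫ facI.hom.app (F.obj X) ≫
      α.hom.app X ≫ Θ.map (facI.inv.app X) := fun X => rfl
  rw [hγ, hγ] at h
  have h2 : hm Φ ≫ facI.inv.app Y = facI.inv.app X ≫ hS.map Φ := by
    unfold hm
    simp only [Category.assoc, Iso.hom_inv_id_app]
    exact congrArg (fun t => facI.inv.app X ≫ t) (Category.comp_id (hS.map Φ))
  have h3 : (hm (fm F hF Φ) ≫ α.hom.app Y) ≫ Θ.map (facI.inv.app Y) =
      (α.hom.app X ≫ Θ.map (hm Φ)) ≫ Θ.map (facI.inv.app Y) := by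
    have e1 : (α.hom.app X ≫ Θ.map (hm Φ)) ≫ Θ.map (facI.inv.app Y) =
        α.hom.app X ≫ Θ.map (facI.inv.app X) ≫ Θ.map (hS.map Φ) := by
      rw [Category.assoc, ← Functor.map_comp, h2, Functor.map_comp]
    rw [e1]
    unfold hm fm
    have e2 : hS.map ((liftI F hF).inv.app X ≫ (liftS F hF).map Φ ≫ (liftI F hF).hom.app Y) =
        hS.map ((liftI F hF).inv.app X) ≫ (liftS F hF ⋙ hS).map Φ ≫
          hS.map ((liftI F hF).hom.app Y) := by
      rw [Functor.map_comp, Functor.map_comp]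
      rfl
    rw [e2]
    simp only [Category.assoc]
    rw [h]
    have e3 : hS.map ((liftI F hF).inv.app X) ≫ hS.map ((liftI F hF).hom.app X) = 𝟙 _ := by
      rw [← Functor.map_comp, Iso.inv_hom_id_app, CategoryTheory.Functor.map_id]
    simp only [Category.assoc]
    rw [reassoc_of% e3]
    erw [Iso.inv_hom_id_app_assoc]
    rfl
  have e4 : Θ.map (facI.inv.app Y) ≫ Θ.map (facI.hom.app Y) = 𝟙 _ := by
    rw [← Functor.map_comp, Iso.inv_hom_id_app, CategoryTheory.Functor.map_id]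
  have e5 := congrArg (fun t => t ≫ Θ.map (facI.hom.app Y)) h3
  simp only [Category.assoc] at e5
  rw [e4] at e5
  simpa using e5

end Fun

end Pool.Agent.Helper1.Stab
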