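import Pool.Agent.Helper1.Stab.Final
import Pool.Agent.Helper56.BSU.Derive

/-!
# The main statement
-/

namespace Pool.Agent.Helper1.Stab

theorem retractStatement : RetractStatement := fun f hf => retract_theorem' f hf

theorem mainStatement : MainStatement := main_of_retract retractStatement

theorem uniqueStatement : UniqueStatement := unique

end Pool.Agent.Helper1.Stab
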