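import Pool.Agent.Helper56.BSU.GFLoc

/-!
# Sums of graded functors
-/

set_option autoImplicit false

open CategoryTheory Topology Opposite

noncomputable section

namespace Pool.Agent.Helper1.Stab

open Pool.Agent.Helper56.BSU

/-! ## The test classes -/

/-- the value of a morphism, as an additive map -/
def GF.evm (b : ℕ) (K : Test) {G H : GF} (f : G ⟶ H) :
    ((G.h b).obj (op K) : Type) →+ ((H.h b).obj (op K) : Type) := ((f.app b).app (op K)).hom

namespace GF

variable {G H L : GF} {b : ℕ} {K : Test}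

theorem evm_eq (f : G ⟶ H) (x : (G.h b).obj (op K)) : (GF.ev b K).map f x = evm b K f x := rfl

theorem evm_id (x : (G.h b).obj (op K)) : evm b K (𝟙 G) x = x := rfl

theorem evm_comp (f : G ⟶ H) (g : H ⟶ L) (x : (G.h b).obj (op K)) :
    evm b K (f ≫ g) x = evm b K g (evm b K f x) := rfl

theorem evm_add (f g : G ⟶ H) (x : (G.h b).obj (op K)) :
    evm b K (f + g) x = evm b K f x + evm b K g x := rfl

theorem evm_zero (x : (G.h b).obj (op K)) : evm b K (0 : G ⟶ H) x = 0 := rfl

end GF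

/-- the values on the spheres `ℝ^a` -/
def sphHT : HT GF (ℕ × ℕ) where
  E t X := (X.h t.1).obj (op (Test.R t.2))
  grp _ _ := inferInstance
  ev {t _ _} f := GF.evm t.1 (Test.R t.2) f
  ev_id _ := rfl
  ev_comp _ _ _ := rfl
  ev_add _ _ _ := rfl

namespace IsSum

variable {ι : Type} {X : ι → GF} {A : GF}

theorem fin' (S : IsSum X A) {b : ℕ} {K : Test} (x : (A.h b).obj (op K)) : ∃ F : Finset ι,
    x = ∑ i ∈ F, GF.evm b K (S.pr i ≫ S.inj i) x := S.fin b K x

theorem pr_inj_apply (S : IsSum X A) {b : ℕ} {K : Test} {x : (A.h b).obj (op K)} {F : Finset ι}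
    (hF : x = ∑ i ∈ F, GF.evm b K (S.pr i ≫ S.inj i) x) {j : ι} (hj : j ∉ F) :
    GF.evm b K (S.pr j) x = 0 := by
  have h1 : GF.evm b K (S.pr j) x =
      ∑ i ∈ F, GF.evm b K ((S.pr i ≫ S.inj i) ≫ S.pr j) x := by
    conv_lhs => rw [hF]
    rw [map_sum]
    rfl
  rw [h1]
  refine Finset.sum_eq_zero fun i hi => ?_
  rw [Category.assoc, S.inj_pr_ne i j (fun h => hj (h ▸ hi)), Limits.comp_zero, GF.evm_zero]

/-- A finite set which works for `x` and contains a given one. -/
theorem fin_superset (S : IsSum X A) {b : ℕ} {K : Test} {x : (A.h b).obj (op K)} {F G : Finset ι}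
    (hF : x = ∑ i ∈ F, GF.evm b K (S.pr i ≫ S.inj i) x) (hFG : F ⊆ G) :
    x = ∑ i ∈ G, GF.evm b K (S.pr i ≫ S.inj i) x := by
  conv_lhs => rw [hF]
  refine Finset.sum_subset hFG fun i _ hi => ?_
  have h1 := S.pr_inj_apply hF hi
  rw [GF.evm_comp, h1, map_zero]

/-- a finite set which works for `x` -/
def sset (S : IsSum X A) {b : ℕ} {K : Test} (x : (A.h b).obj (op K)) : Finset ι :=
  (S.fin' x).choose

theorem sset_spec (S : IsSum X A) {b : ℕ} {K : Test} (x : (A.h b).obj (op K)) :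
    x = ∑ i ∈ S.sset x, GF.evm b K (S.pr i ≫ S.inj i) x := (S.fin' x).choose_spec

open Classical in
/-- the value of the map with components `f` -/
def descFun (S : IsSum X A) {Y : GF} (f : ∀ i, X i ⟶ Y) {b : ℕ} {K : Test}
    (x : (A.h b).obj (op K)) : (Y.h b).obj (op K) :=
  ∑ i ∈ S.sset x, GF.evm b K (S.pr i ≫ f i) x

theorem descFun_eq (S : IsSum X A) {Y : GF} (f : ∀ i, X i ⟶ Y) {b : ℕ} {K : Test}
    {x : (A.h b).obj (op K)} {F : Finset ι}
    (hF : x = ∑ i ∈ F, GF.evm b K (S.pr i ≫ S.inj i) x) :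
    S.descFun f x = ∑ i ∈ F, GF.evm b K (S.pr i ≫ f i) x := by
  classical
  have key : ∀ F G : Finset ι, x = ∑ i ∈ F, GF.evm b K (S.pr i ≫ S.inj i) x → F ⊆ G →
      ∑ i ∈ F, GF.evm b K (S.pr i ≫ f i) x = ∑ i ∈ G, GF.evm b K (S.pr i ≫ f i) x := by
    intro F G hF hFG
    refine Finset.sum_subset hFG fun i _ hi => ?_
    rw [GF.evm_comp, S.pr_inj_apply hF hi, map_zero]
  unfold descFun
  exact (key _ (S.sset x ∪ F) (S.sset_spec x) Finset.subset_union_left).trans
    (key _ (S.sset x ∪ F) hF Finset.subset_union_right).symm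

/-- compatibility with additive maps -/
theorem descFun_map (S : IsSum X A) {Y : GF} (f : ∀ i, X i ⟶ Y) {b b' : ℕ} {K K' : Test}
    (α : (A.h b).obj (op K) →+ (A.h b').obj (op K')) (β : (Y.h b).obj (op K) →+ (Y.h b').obj (op K'))
    (hα : ∀ i x, α (GF.evm b K (S.pr i ≫ S.inj i) x) =
      GF.evm b' K' (S.pr i ≫ S.inj i) (α x))
    (hβ : ∀ i x, β (GF.evm b K (S.pr i ≫ f i) x) = GF.evm b' K' (S.pr i ≫ f i) (α x))
    (x : (A.h b).obj (op K)) : S.descFun f (α x) = β (S.descFun f x) := by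
  have h1 : α x = ∑ i ∈ S.sset x, GF.evm b' K' (S.pr i ≫ S.inj i) (α x) := by
    conv_lhs => rw [S.sset_spec x]
    rw [map_sum]
    exact Finset.sum_congr rfl fun i _ => hα i x
  rw [S.descFun_eq f h1]
  unfold descFun
  rw [map_sum]
  exact Finset.sum_congr rfl fun i _ => (hβ i x).symm

theorem descFun_add (S : IsSum X A) {Y : GF} (f : ∀ i, X i ⟶ Y) {b : ℕ} {K : Test}
    (x y : (A.h b).obj (op K)) : S.descFun f (x + y) = S.descFun f x + S.descFun f y := by
  classical
  have hx := S.fin_superset (S.sset_spec x) (Finset.subset_union_left (s₂ := S.sset y))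
  have hy := S.fin_superset (S.sset_spec y) (Finset.subset_union_right (s₁ := S.sset x))
  have hxy : x + y = ∑ i ∈ S.sset x ∪ S.sset y, GF.evm b K (S.pr i ≫ S.inj i) (x + y) := by
    have h1 : ∑ i ∈ S.sset x ∪ S.sset y, GF.evm b K (S.pr i ≫ S.inj i) (x + y) =
        ∑ i ∈ S.sset x ∪ S.sset y, (GF.evm b K (S.pr i ≫ S.inj i) x +
          GF.evm b K (S.pr i ≫ S.inj i) y) := Finset.sum_congr rfl fun i _ => map_add _ _ _
    rw [h1, Finset.sum_add_distrib, ← hx, ← hy]
  rw [S.descFun_eq f hxy, S.descFun_eq f hx, S.descFun_eq f hy, ← Finset.sum_add_distrib]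
  exact Finset.sum_congr rfl fun i _ => map_add _ _ _

theorem descFun_zero (S : IsSum X A) {Y : GF} (f : ∀ i, X i ⟶ Y) {b : ℕ} {K : Test} :
    S.descFun f (0 : (A.h b).obj (op K)) = 0 := by
  have h0 : (0 : (A.h b).obj (op K)) = ∑ i ∈ (∅ : Finset ι),
      GF.evm b K (S.pr i ≫ S.inj i) (0 : (A.h b).obj (op K)) := by rw [Finset.sum_empty]
  rw [S.descFun_eq f h0, Finset.sum_empty]

/-- Maps out of a sum can be given by their components. -/
theorem desc (S : IsSum X A) {Y : GF} (f : ∀ i, X i ⟶ Y) : ∃ Φ : A ⟶ Y, ∀ i, S.inj i ≫ Φ = f i := by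
  let Φ : A ⟶ Y := GF.Hom.mk' (G := A) (H := Y)
    (fun b =>
      { app := fun K => AddCommGrpCat.ofHom
          { toFun := fun x => S.descFun f (K := K.unop) x
            map_zero' := S.descFun_zero f
            map_add' := S.descFun_add f }
        naturality := fun K L g => by
          ext x
          exact S.descFun_map f (K := K.unop) (K' := L.unop) ((A.h b).map g).hom
            ((Y.h b).map g).hom
            (fun i x => congrArg (fun t => t.hom x) (((S.pr i ≫ S.inj i).app b).naturality g).symm)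
            (fun i x => congrArg (fun t => t.hom x) (((S.pr i ≫ f i).app b).naturality g).symm)
            x })
    (fun b K => by
      ext x
      exact S.descFun_map f (K := K.unop) (K' := (Test.cx.op.obj K).unop) ((A.σ b).hom.app K).hom
        ((Y.σ b).hom.app K).hom
        (fun i x => congrArg (fun t => t.hom x) (GF.Hom.comm_apply (S.pr i ≫ S.inj i) b K).symm)
        (fun i x => congrArg (fun t => t.hom x) (GF.Hom.comm_apply (S.pr i ≫ f i) b K).symm) x)
  refine ⟨Φ, fun j => GF.hom_ext fun b => ?_⟩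
  apply NatTrans.ext
  funext K
  ext x
  change S.descFun f (K := K.unop) (GF.evm b K.unop (S.inj j) x) = GF.evm b K.unop (f j) x
  have h1 : GF.evm b K.unop (S.inj j) x = ∑ i ∈ ({j} : Finset ι),
      GF.evm b K.unop (S.pr i ≫ S.inj i) (GF.evm b K.unop (S.inj j) x) := by
    rw [Finset.sum_singleton, ← GF.evm_comp, ← Category.assoc, S.inj_pr, Category.id_comp]
  rw [S.descFun_eq f h1, Finset.sum_singleton, ← GF.evm_comp, ← Category.assoc, S.inj_pr,
    Category.id_comp]

/-- the coproduct of `Krull` -/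
def toCop (S : IsSum X A) : Cop sphHT X where
  W := A
  inc := S.inj
  prj := S.pr
  inc_prj := S.inj_pr
  inc_prj_ne := S.inj_pr_ne
  supp t x := S.fin t.1 (Test.R t.2) x

theorem toCop_desc (S : IsSum X A) : S.toCop.Desc := fun f => S.desc f

/-! ## Constructions -/

/-- the image of a sum under a functor given by additive maps on values -/
def mapF (S : IsSum X A) (F : GF ⥤ GF) [F.Additive]
    (h : ∀ (b : ℕ) (K : Test) (x : ((F.obj A).h b).obj (op K)), ∃ F' : Finset ι,
      x = ∑ i ∈ F', GF.evm b K (F.map (S.pr i ≫ S.inj i)) x) :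
    IsSum (fun i => F.obj (X i)) (F.obj A) where
  inj i := F.map (S.inj i)
  pr i := F.map (S.pr i)
  inj_pr i := by rw [← F.map_comp, S.inj_pr, F.map_id]
  inj_pr_ne i j hij := by rw [← F.map_comp, S.inj_pr_ne i j hij, F.map_zero]
  fin b K x := by
    obtain ⟨F', hF'⟩ := h b K x
    refine ⟨F', hF'.trans (Finset.sum_congr rfl fun i _ => ?_)⟩
    rw [F.map_comp]
    rfl

/-- localisation of a sum -/
def loc (S : IsSum X A) (T : Submonoid ℤ) :
    IsSum (fun i => (GF.loc T).obj (X i)) ((GF.loc T).obj A) :=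
  S.mapF (GF.loc T) fun b K x => by
    obtain ⟨m, s, rfl⟩ := fr_ind (S := T) (M := (A.h b).obj (op K)) x
    obtain ⟨F, hF⟩ := S.fin' m
    refine ⟨F, ?_⟩
    let φ : (A.h b).obj (op K) →+ (locF T).obj ((A.h b).obj (op K)) :=
      { toFun := fun m => fr T m s
        map_zero' := fr_zero
        map_add' := fun m m' => (fr_add m m' s).symm }
    have h1 : fr T m s = ∑ i ∈ F, fr T (GF.evm b K (S.pr i ≫ S.inj i) m) s := by
      change φ m = ∑ i ∈ F, φ (GF.evm b K (S.pr i ≫ S.inj i) m)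
      rw [← map_sum, ← hF]
    refine h1.trans (Finset.sum_congr rfl fun i _ => ?_)
    exact (fr_map ((GF.ev b K).map (S.pr i ≫ S.inj i)) m s).symm

/-- the shift of a sum -/
def shift (S : IsSum X A) : IsSum (fun i => GF.shiftF.obj (X i)) (GF.shiftF.obj A) :=
  S.mapF GF.shiftF fun b K x => S.fin (b + 1) K x

/-- the inverse shift of a sum -/
def unshift (S : IsSum X A) : IsSum (fun i => GF.unshiftF.obj (X i)) (GF.unshiftF.obj A) :=
  S.mapF GF.unshiftF fun b K x => S.fin b (Test.cx.obj K) x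

/-- the summands can be replaced by isomorphic ones -/
def congrS (S : IsSum X A) {Y : ι → GF} (e : ∀ i, X i ≅ Y i) : IsSum Y A where
  inj i := (e i).inv ≫ S.inj i
  pr i := S.pr i ≫ (e i).hom
  inj_pr i := by
    rw [Category.assoc, ← Category.assoc (S.inj i), S.inj_pr, Category.id_comp, Iso.inv_hom_id]
  inj_pr_ne i j hij := by
    rw [Category.assoc, ← Category.assoc (S.inj i), S.inj_pr_ne i j hij, Limits.zero_comp,
      Limits.comp_zero]
  fin b K x := by
    obtain ⟨F, hF⟩ := S.fin' x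
    refine ⟨F, hF.trans (Finset.sum_congr rfl fun i _ => ?_)⟩
    have h1 : (S.pr i ≫ (e i).hom) ≫ (e i).inv ≫ S.inj i = S.pr i ≫ S.inj i := by
      rw [Category.assoc, Iso.hom_inv_id_assoc]
    rw [h1]
    rfl

/-- the sum can be replaced by an isomorphic object -/
def congrObj (S : IsSum X A) {A' : GF} (e : A ≅ A') : IsSum X A' where
  inj i := S.inj i ≫ e.hom
  pr i := e.inv ≫ S.pr i
  inj_pr i := by rw [Category.assoc, Iso.hom_inv_id_assoc, S.inj_pr]
  inj_pr_ne i j hij := by rw [Category.assoc, Iso.hom_inv_id_assoc, S.inj_pr_ne i j hij]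
  fin b K x := by
    obtain ⟨F, hF⟩ := S.fin' (GF.evm b K e.inv x)
    refine ⟨F, ?_⟩
    have h1 : GF.evm b K e.hom (GF.evm b K e.inv x) = x := by
      rw [← GF.evm_comp, Iso.inv_hom_id, GF.evm_id]
    have h2 : x = ∑ i ∈ F, GF.evm b K e.hom (GF.evm b K (S.pr i ≫ S.inj i)
        (GF.evm b K e.inv x)) := by
      rw [← map_sum, ← hF, h1]
    exact h2

/-- sums of sums -/
def transS (S : IsSum X A) {κ : ι → Type} {Y : ∀ i, κ i → GF} (T : ∀ i, IsSum (Y i) (X i)) :
    IsSum (fun a : Σ i, κ i => Y a.1 a.2) A where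
  inj a := (T a.1).inj a.2 ≫ S.inj a.1
  pr a := S.pr a.1 ≫ (T a.1).pr a.2
  inj_pr a := by
    rw [Category.assoc, ← Category.assoc (S.inj a.1), S.inj_pr, Category.id_comp, (T a.1).inj_pr]
  inj_pr_ne := by
    rintro ⟨i, a⟩ ⟨j, c⟩ hne
    by_cases hij : i = j
    · subst hij
      change ((T i).inj a ≫ S.inj i) ≫ S.pr i ≫ (T i).pr c = 0
      rw [Category.assoc, ← Category.assoc (S.inj i), S.inj_pr, Category.id_comp,
        (T i).inj_pr_ne a c (fun h => hne (by rw [h]))]
    · change ((T i).inj a ≫ S.inj i) ≫ S.pr j ≫ (T j).pr c = 0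
      rw [Category.assoc, ← Category.assoc (S.inj i), S.inj_pr_ne i j hij, Limits.zero_comp,
        Limits.comp_zero]
  fin b K x := by
    classical
    obtain ⟨F, hF⟩ := S.fin' x
    have h1 : ∀ i, ∃ G : Finset (κ i), GF.evm b K (S.pr i) x =
        ∑ a ∈ G, GF.evm b K ((T i).pr a ≫ (T i).inj a) (GF.evm b K (S.pr i) x) :=
      fun i => (T i).fin' _
    choose G hG using h1
    refine ⟨F.sigma G, ?_⟩
    rw [Finset.sum_sigma]
    refine hF.trans (Finset.sum_congr rfl fun i _ => ?_)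
    rw [GF.evm_comp]
    conv_lhs => rw [hG i]
    rw [map_sum]
    rfl

end IsSum

end Pool.Agent.Helper1.Stab
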