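import Pool.Agent.Helper56.BSU.Hm
import Pool.Agent.Helper56.BSU.Sum

/-!
# Even suspensions, realisation
-/

set_option autoImplicit false

open CategoryTheory Topology Opposite

noncomputable section

namespace Pool.Agent.Helper1.Stab

open Pool.Agent.Helper56.BSU

/-- double suspension -/
def up2 : Prespectrum ⥤ Prespectrum := upF ⋙ upF

/-- double desuspension -/
def down2 : Prespectrum ⥤ Prespectrum := downF ⋙ downF

/-- the comparison -/
def up2I : up2 ⋙ hP ≅ hP ⋙ GF.shiftF := hP_up2.some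

/-- the comparison -/
def down2I : down2 ⋙ hP ≅ hP ⋙ GF.unshiftF :=
  let e₁ : down2 ⋙ hP ≅ (down2 ⋙ hP ⋙ GF.shiftF) ⋙ GF.unshiftF :=
    Functor.isoWhiskerLeft (down2 ⋙ hP) (asIso GF.η)
  let e₂ : (down2 ⋙ hP ⋙ GF.shiftF) ⋙ GF.unshiftF ≅ (down2 ⋙ up2 ⋙ hP) ⋙ GF.unshiftF :=
    Functor.isoWhiskerRight (Functor.isoWhiskerLeft down2 up2I.symm) GF.unshiftF
  let e₃ : (down2 ⋙ up2 ⋙ hP) ⋙ GF.unshiftF ≅ hP ⋙ GF.unshiftF := Iso.refl _
  e₁ ≪≫ e₂ ≪≫ e₃

section Map

variable {F : Prespectrum ⥤ Prespectrum} {Θ : GF ⥤ GF}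

theorem stableEquiv_map (α : F ⋙ hP ≅ hP ⋙ Θ) {X Y : Prespectrum} (f : X ⟶ Y)
    (h : stableEquiv f) : stableEquiv (F.map f) := by
  rw [stableEquiv_iff] at h ⊢
  exact (NatIso.isIso_map_iff α f).2 (Functor.map_isIso Θ (hP.map f))

theorem stableEquiv_of_map [Θ.ReflectsIsomorphisms] (α : F ⋙ hP ≅ hP ⋙ Θ) {X Y : Prespectrum}
    (f : X ⟶ Y) (h : stableEquiv (F.map f)) : stableEquiv f := by
  rw [stableEquiv_iff] at h ⊢
  have h1 : IsIso (Θ.map (hP.map f)) := (NatIso.isIso_map_iff α f).1 h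
  exact isIso_of_reflects_iso (hP.map f) Θ

end Map

/-- The map from the double suspension of the double desuspension. -/
def upDown2 (X : Prespectrum) : down2.obj (up2.obj X) ⟶ X :=
  downF.map X.up.upDown ≫ X.upDown

theorem stableEquiv_id (X : Prespectrum) : stableEquiv (𝟙 X) := by
  rw [stableEquiv_iff, CategoryTheory.Functor.map_id]
  infer_instance

theorem stableEquiv_upDown2 (X : Prespectrum) : stableEquiv (upDown2 X) := by
  refine stableEquiv_of_map up2I _ ?_
  have h : up2.map (upDown2 X) = 𝟙 (up2.obj X) := rfl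
  exact h ▸ stableEquiv_id _

/-! ## Realisation -/

theorem realises_of_functor {F : Prespectrum ⥤ Prespectrum} {Θ : GF ⥤ GF} [Θ.Full]
    (α : F ⋙ hP ≅ hP ⋙ Θ) {X X' : Prespectrum} (hX : Realises X') (jX : F.obj X' ⟶ X)
    (hjX : stableEquiv jX)
    (hY : ∀ Y : Prespectrum, ∃ (Y' : Prespectrum) (jY : F.obj Y' ⟶ Y), stableEquiv jY) :
    Realises X := by
  intro Y φ
  obtain ⟨Y', jY, hjY⟩ := hY Y
  have iX : IsIso (hP.map jX) := (stableEquiv_iff jX).1 hjX
  have iY : IsIso (hP.map jY) := (stableEquiv_iff jY).1 hjY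
  have qX : IsIso (stableEquiv.Q.map jX) := isIso_Q hjX
  let ψ₀ : Θ.obj (hP.obj X') ⟶ Θ.obj (hP.obj Y') :=
    α.inv.app X' ≫ hP.map jX ≫ φ ≫ inv (hP.map jY) ≫ α.hom.app Y'
  obtain ⟨ψ, hψ⟩ := Θ.map_surjective ψ₀
  obtain ⟨Ψ, hΨ⟩ := hX Y' ψ
  refine ⟨inv (stableEquiv.Q.map jX) ≫
    fm F (fun f h => stableEquiv_map α f h) Ψ ≫ stableEquiv.Q.map jY, ?_⟩
  rw [hm_comp]
  refine hm_inv_comp (stableEquiv.Q.map jX) _ φ ?_
  rw [hm_comp, hm_Q, hm_Q]
  have h1 := hm_fm F (fun f h => stableEquiv_map α f h) α Ψ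
  rw [hΨ, hψ] at h1
  have h2 : hm (fm F (fun f h => stableEquiv_map α f h) Ψ) ≫ α.hom.app Y' =
      (hP.map jX ≫ φ ≫ inv (hP.map jY)) ≫ α.hom.app Y' := by
    rw [h1]
    change α.hom.app X' ≫ α.inv.app X' ≫ hP.map jX ≫ φ ≫ inv (hP.map jY) ≫ α.hom.app Y' = _
    rw [Iso.hom_inv_id_app_assoc]
    simp only [Category.assoc]
  have h3 := (cancel_mono (α.hom.app Y')).1 h2
  rw [h3]
  simp only [Category.assoc, IsIso.inv_hom_id, Category.comp_id]

theorem realises_up (X : Prespectrum) (h : Realises X.up.up) : Realises X :=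
  realises_of_functor down2I (X' := up2.obj X) h (upDown2 X) (stableEquiv_upDown2 X)
    fun Y => ⟨up2.obj Y, upDown2 Y, stableEquiv_upDown2 Y⟩

theorem realises_down (X : Prespectrum) (h : Realises X.down.down) : Realises X :=
  realises_of_functor up2I (X' := down2.obj X) h (𝟙 X) (stableEquiv_id X)
    fun Y => ⟨down2.obj Y, 𝟙 Y, stableEquiv_id Y⟩

/-! ## Induction on suspensions -/

/-- double suspension as a function -/
def uu (X : Prespectrum) : Prespectrum := X.up.up

/-- double desuspension as a function -/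
def dd (X : Prespectrum) : Prespectrum := X.down.down

theorem uu_dd (X : Prespectrum) : uu (dd X) = X := rfl

theorem susp_cases (X : Prespectrum) (n : ℤ) :
    ∃ k : ℕ, X.susp (2 * n) = uu^[k] X ∨ X.susp (2 * n) = dd^[k] X := by
  rcases n with k | k
  · refine ⟨k, Or.inl ?_⟩
    have h1 : (2 : ℤ) * Int.ofNat k = Int.ofNat (2 * k) := by simp
    rw [h1]
    change Prespectrum.up^[2 * k] X = _
    rw [Function.iterate_mul]
    rfl
  · refine ⟨k + 1, Or.inr ?_⟩
    have h1 : (2 : ℤ) * Int.negSucc k = Int.negSucc (2 * k + 1) := by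
      rw [Int.negSucc_eq, Int.negSucc_eq]
      push_cast
      ring
    rw [h1]
    change Prespectrum.down^[2 * k + 1 + 1] X = _
    have h2 : 2 * k + 1 + 1 = 2 * (k + 1) := by ring
    rw [h2, Function.iterate_mul]
    rfl

theorem iter_ind {P : Prespectrum → Prop} {F : Prespectrum → Prespectrum}
    (h : ∀ X, P X → P (F X)) (k : ℕ) : ∀ X, P X → P (F^[k] X) := by
  induction k with
  | zero => exact fun X hX => hX
  | succ k ih => exact fun X hX => ih (F X) (h X hX)

theorem iter_ind' {P : Prespectrum → Prop} {F : Prespectrum → Prespectrum}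
    (h : ∀ X, P (F X) → P X) (k : ℕ) : ∀ X, P (F^[k] X) → P X := by
  induction k with
  | zero => exact fun X hX => hX
  | succ k ih => exact fun X hX => h X (ih (F X) hX)

theorem susp_ind {P : Prespectrum → Prop} (hu : ∀ X, P X → P (uu X)) (hd : ∀ X, P X → P (dd X))
    {X : Prespectrum} (h : P X) (n : ℤ) : P (X.susp (2 * n)) := by
  obtain ⟨k, h1 | h1⟩ := susp_cases X n
  · rw [h1]
    exact iter_ind hu k X h
  · rw [h1]
    exact iter_ind hd k X h

theorem susp_ind' {P : Prespectrum → Prop} (hu : ∀ X, P (uu X) → P X) (hd : ∀ X, P (dd X) → P X)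
    {X : Prespectrum} {n : ℤ} (h : P (X.susp (2 * n))) : P X := by
  obtain ⟨k, h1 | h1⟩ := susp_cases X n
  · rw [h1] at h
    exact iter_ind' hu k X h
  · rw [h1] at h
    exact iter_ind' hd k X h

theorem realises_susp {X : Prespectrum} {n : ℤ} (h : Realises (X.susp (2 * n))) : Realises X :=
  susp_ind' (P := Realises) realises_up realises_down h

/-- T₁ levels -/
def T1P (X : Prespectrum) : Prop := ∀ n, T1Space (X.sp n)

theorem T1P.uu {X : Prespectrum} (h : T1P X) : T1P (uu X) := fun n => h (n + 1 + 1)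

theorem T1P.dd {X : Prespectrum} (h : T1P X) : T1P (dd X) := fun n => by
  match n with
  | 0 => exact inferInstanceAs (T1Space Unit)
  | 1 => exact inferInstanceAs (T1Space Unit)
  | n + 2 => exact h n

theorem T1P.susp {X : Prespectrum} (h : T1P X) (n : ℤ) : T1P (X.susp (2 * n)) :=
  susp_ind (P := T1P) (fun _ h => h.uu) (fun _ h => h.dd) h n

/-! ## Properties invariant under equivalences -/

theorem LocEnd.of_full {C D : Type*} [Category C] [Category D] [Preadditive C] [Preadditive D]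
    (F : C ⥤ D) [F.Full] [F.Faithful] [F.Additive] {M : C} (hM : LocEnd M) : LocEnd (F.obj M) := by
  refine ⟨fun h => hM.1 ?_, fun f g hfg => ?_⟩
  · apply F.map_injective
    rw [F.map_id, F.map_zero]
    exact h
  · obtain ⟨f', rfl⟩ := F.map_surjective f
    obtain ⟨g', rfl⟩ := F.map_surjective g
    rw [← F.map_add, ← F.map_id] at hfg
    rcases hM.2 f' g' (F.map_injective hfg) with h | h
    · left; infer_instance
    · right; infer_instance

theorem LocEnd.of_iso {C : Type*} [Category C] [Preadditive C] {M N : C} (e : M ≅ N)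
    (hM : LocEnd M) : LocEnd N := by
  refine ⟨fun h => hM.1 ?_, fun f g hfg => ?_⟩
  · calc 𝟙 M = e.hom ≫ 𝟙 N ≫ e.inv := by rw [Category.id_comp, Iso.hom_inv_id]
      _ = 0 := by rw [h, Limits.zero_comp, Limits.comp_zero]
  · have h1 : e.hom ≫ f ≫ e.inv + e.hom ≫ g ≫ e.inv = 𝟙 M := by
      rw [← Preadditive.comp_add, ← Preadditive.add_comp, hfg, Category.id_comp, Iso.hom_inv_id]
    have key : ∀ f : N ⟶ N, IsIso (e.hom ≫ f ≫ e.inv) → IsIso f := by
      intro f h
      have h2 : f = e.inv ≫ (e.hom ≫ f ≫ e.inv) ≫ e.hom := by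
        simp
      rw [h2]
      infer_instance
    rcases hM.2 _ _ h1 with h | h
    · exact Or.inl (key f h)
    · exact Or.inr (key g h)

theorem locEnd_susp {X : Prespectrum} (h : LocEnd (hP.obj X)) (n : ℤ) :
    LocEnd (hP.obj (X.susp (2 * n))) := by
  refine susp_ind (P := fun X => LocEnd (hP.obj X)) (fun X hX => ?_) (fun X hX => ?_) h n
  · exact LocEnd.of_iso (up2I.app X).symm (LocEnd.of_full GF.shiftF hX)
  · exact LocEnd.of_iso (down2I.app X).symm (LocEnd.of_full GF.unshiftF hX)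

/-- `s` is invertible on `G` -/
def Inv (s : ℤ) {C : Type*} [Category C] [Preadditive C] (G : C) : Prop := IsIso (s • 𝟙 G)

theorem Inv.of_iso {s : ℤ} {C : Type*} [Category C] [Preadditive C] {G H : C} (e : G ≅ H)
    (h : Inv s G) : Inv s H := by
  unfold Inv at *
  have h1 : s • 𝟙 H = e.inv ≫ (s • 𝟙 G) ≫ e.hom := by
    rw [Preadditive.zsmul_comp, Preadditive.comp_zsmul, Category.id_comp, Iso.inv_hom_id]
  rw [h1]
  infer_instance

theorem Inv.retract {s : ℤ} {C : Type*} [Category C] [Preadditive C] {G H : C} (i : H ⟶ G)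
    (r : G ⟶ H) (hir : i ≫ r = 𝟙 H) (h : Inv s G) : Inv s H := by
  obtain ⟨w, hw1, hw2⟩ := h
  refine ⟨i ≫ w ≫ r, ?_, ?_⟩
  · rw [Preadditive.zsmul_comp, Category.id_comp]
    have h1 : s • (i ≫ w ≫ r) = i ≫ ((s • 𝟙 G) ≫ w) ≫ r := by
      rw [Preadditive.zsmul_comp, Category.id_comp, Preadditive.zsmul_comp, Preadditive.comp_zsmul]
    rw [h1, hw1, Category.id_comp, hir]
  · rw [Preadditive.comp_zsmul, Category.comp_id]
    have h1 : s • (i ≫ w ≫ r) = i ≫ (w ≫ (s • 𝟙 G)) ≫ r := by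
      rw [Preadditive.comp_zsmul, Category.comp_id, Preadditive.zsmul_comp, Preadditive.comp_zsmul]
    rw [h1, hw2, Category.id_comp, hir]

theorem Inv.map {s : ℤ} {C D : Type*} [Category C] [Category D] [Preadditive C] [Preadditive D]
    (F : C ⥤ D) [F.Additive] {G : C} (h : Inv s G) : Inv s (F.obj G) := by
  unfold Inv at *
  have h1 : s • 𝟙 (F.obj G) = F.map (s • 𝟙 G) := by
    rw [Functor.map_zsmul, CategoryTheory.Functor.map_id]
  rw [h1]
  infer_instance

theorem Inv.reflect {s : ℤ} {C D : Type*} [Category C] [Category D] [Preadditive C]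
    [Preadditive D] (F : C ⥤ D) [F.Additive] [F.ReflectsIsomorphisms] {G : C}
    (h : Inv s (F.obj G)) : Inv s G := by
  unfold Inv at *
  have h1 : s • 𝟙 (F.obj G) = F.map (s • 𝟙 G) := by
    rw [Functor.map_zsmul, CategoryTheory.Functor.map_id]
  rw [h1] at h
  exact isIso_of_reflects_iso _ F

theorem inv_susp {s : ℤ} {X : Prespectrum} {n : ℤ} (h : Inv s (hP.obj (X.susp (2 * n)))) :
    Inv s (hP.obj X) := by
  refine susp_ind' (P := fun X => Inv s (hP.obj X)) (fun X hX => ?_) (fun X hX => ?_) h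
  · exact Inv.reflect GF.shiftF (hX.of_iso (up2I.app X))
  · exact Inv.reflect GF.unshiftF (hX.of_iso (down2I.app X))

end Pool.Agent.Helper1.Stab
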