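import Pool.Agent.Helper68.Stab.TopG
import Pool.Agent.Helper56.BSU.Shift

/-! The interface from topology that the derivation uses (`hP_up2` is in `Helper68/Stab/Susp.lean`). -/
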